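import Pool.Agent.TH133.DefsBB
import Pool.Agent.TH133.DefsNil

/-!
# Zero-cycles, cycles of middle codimension and filtrations of Chow groups: definitions
-/

open CategoryTheory AlgebraicGeometry

universe u v w

namespace Pool.Agent.TH116.ZC

open Pool.Agent.H914 Pool.Agent.H914.VarClass Pool.Agent.H914.VarClass.Obj Pool.Agent.W492.BB
  Pool.Agent.TH133

variable {k : Type u} [Field k] {𝒱 : VarClass k}

/-- The correspondence `γ ∈ CH^(dim X)(X × Y)` (of degree zero) is a finite sum of compositions
`X → D s → Y` of correspondences of degree zero, where all `D s` have dimension `n`. -/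
def FactorsThroughDim (C : TheoryData.{u, v, 0} 𝒱 ℚ) {X Y : 𝒱.Obj} (n : ℕ)
    (γ : C.A (X.prod Y)) : Prop :=
  ∃ (r : ℕ) (D : Fin r → 𝒱.Obj) (f : ∀ s, C.A (X.prod (D s))) (g : ∀ s, C.A ((D s).prod Y)),
    (∀ s, (D s).dim = n ∧ C.Deg X.dim (f s) ∧ C.Deg (D s).dim (g s)) ∧
      γ = ∑ s, C.comp (f s) (g s)

/-- Bloch-Srinivas: for every variety `X` of dimension `d > 0` and every sequence of
correspondences `γ n ∈ CH^d(X × Y n)` there is a zero-cycle `η` on `X` such that every `γ n` with
`(γ n)_* η = 0` is a sum of compositions of correspondences through varieties of dimension `d - 1`.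

This holds for the class of all smooth projective varieties over an uncountable algebraically
closed field: take for `η` a point of `X` which is generic over a countable field over which `X`,
the `Y n` and the `γ n` are defined; if `(γ n)_* η = 0`, then `γ n` vanishes on `U × Y n` for some
non-empty open subset `U` of `X`, so it is the push-forward of a class on `D × Y n`, where the
varieties `D` of dimension `d - 1` dominate the components of a divisor of `X`. -/
def HasGenericPoints (C : TheoryData.{u, v, 0} 𝒱 ℚ) : Prop :=
  ∀ X : 𝒱.Obj, 0 < X.dim → ∀ (Y : ℕ → 𝒱.Obj) (γ : ∀ n, C.A (X.prod (Y n))),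
    (∀ n, C.Deg X.dim (γ n)) →
      ∃ η : C.A X, C.Deg X.dim η ∧
        ∀ n, C.act (γ n) η = 0 → FactorsThroughDim C (X.dim - 1) (γ n)

/-- Cycles are detected by their exterior products with generic zero-cycles of degree zero on
generic curves: for every variety `X` and every sequence of classes `x n ∈ CH(X)` there are a curve
`T` and a zero-cycle `t` of degree zero on `T` such that `x n × t ≠ 0` in `CH(X × T)` if `x n ≠ 0`.

This holds for the class of all smooth projective varieties over an uncountable algebraically
closed field `k`. Let `X` and the `x n` be defined over a countable algebraically closed subfield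
`k₀`, let `E` be an elliptic curve over `K = k₀(λ) ⊂ k` with `λ` transcendental over `k₀`, which has
multiplicative reduction somewhere, let `K' ⊂ k` be the algebraic closure of `K`, and let
`t = p - 0` with `p` a point of `E` generic over `K'`. If `x × t = 0` for some `x = x n`, then
`x × (Δ_E - 0 × E - E × 0)` is a sum of classes `y_s × (e_s - 0)` with `e_s` in `E(K')` and `y_s` on
`X × E`. Restricting to the diagonal of `E` and pushing forward to `X` one finds that `-2 x` is the
sum of the classes `(y_s)_* (e_s - 0)` in `CH(X_K')`. Specialize this to a fibre of bad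
reduction of `E` (over a curve over `k₀` over which all classes are defined): `e_s - 0` becomes
a line bundle on a polygon of rational curves which has degree zero on all components, after
adding components of the fibre with rational coefficients. So the right hand side specializes to
zero, and `2 x = 0`. -/
def HasGenericCurves (C : TheoryData.{u, v, 0} 𝒱 ℚ) : Prop :=
  ∀ (X : 𝒱.Obj) (x : ℕ → C.A X), ∃ (T : 𝒱.Obj) (t : C.A T), T.dim = 1 ∧ C.Deg 1 t ∧
    HasDegree C t 0 ∧ ∀ n, C.ext (x n) t = 0 → x n = 0

variable {C : TheoryData.{u, v, 0} 𝒱 ℚ} {K : Type w} [Field K]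

/-- If a self-correspondence `γ` of degree zero of `X` acts as zero on `H^j(X)` for all
`j ≠ dim X - 1`, then its action on the group `CH_0(X)` of zero-cycles is locally nilpotent. -/
def NilpotentOnZeroCycles (H : WeilTheoryData.{u, v, w} C K) (X : 𝒱.Obj) : Prop :=
  ∀ γ : C.A (X.prod X), C.Deg X.dim γ → (∀ j : ℤ, j ≠ X.dim - 1 → Kills H γ j) →
    ∀ z : C.A X, C.Deg X.dim z → ∃ m : ℕ, (C.act γ)^[m] z = 0

/-- If `X` has dimension `2 i` and a self-correspondence `γ` of degree zero of `X` acts as zero on
`H^j(X)` for all `j ≠ 2 i`, then its action on the group of homologically trivial classes in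
`CH^i(X)` is locally nilpotent. (No condition on varieties of odd dimension.) -/
def NilpotentInMiddleCodim (H : WeilTheoryData.{u, v, w} C K) (X : 𝒱.Obj) : Prop :=
  ∀ i : ℕ, X.dim = 2 * i → ∀ γ : C.A (X.prod X), C.Deg X.dim γ →
    (∀ j : ℤ, j ≠ X.dim → Kills H γ j) →
      ∀ z : C.A X, C.Deg i z → H.cl z = 0 → ∃ m : ℕ, (C.act γ)^[m] z = 0

/-- If `X` has dimension `2 i + 1` and a self-correspondence `γ` of degree zero of `X` acts as zero
on `H^j(X)` for all `j ≠ 2 i + 1`, then its action on `CH^i(X)` is locally nilpotent. (No condition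
on varieties of even dimension.) -/
def NilpotentBelowMiddleCodim (H : WeilTheoryData.{u, v, w} C K) (X : 𝒱.Obj) : Prop :=
  ∀ i : ℕ, X.dim = 2 * i + 1 → ∀ γ : C.A (X.prod X), C.Deg X.dim γ →
    (∀ j : ℤ, j ≠ X.dim → Kills H γ j) →
      ∀ z : C.A X, C.Deg i z → ∃ m : ℕ, (C.act γ)^[m] z = 0

/-- For all `j < dim X`, some sum of compositions `X → D s → X` of correspondences of degree zero,
where all `D s` have dimension `dim X - 1`, acts as the identity on `H^j(X)`. (A consequence of
the Lefschetz standard conjecture for `X`, with a hyperplane section of `X`.) -/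
def LowDegreesFactor (H : WeilTheoryData.{u, v, w} C K) (X : 𝒱.Obj) : Prop :=
  ∀ j : ℕ, j < X.dim → ∃ γ : C.A (X.prod X), FactorsThroughDim C (X.dim - 1) γ ∧
    ∀ a : H.A X, H.Deg j a → H.act (H.cl γ) a = a

/-- Homologically trivial self-correspondences of degree zero of `X` act locally nilpotently on
`CH_0(X)`. -/
def HomTrivialNilpotentOnZeroCycles (H : WeilTheoryData.{u, v, w} C K) (X : 𝒱.Obj) : Prop :=
  ∀ γ : C.A (X.prod X), C.Deg X.dim γ → H.cl γ = 0 →
    ∀ z : C.A X, C.Deg X.dim z → ∃ m : ℕ, (C.act γ)^[m] z = 0

end Pool.Agent.TH116.ZC
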