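import Pool.Agent.TH133.DefsAJ
import Pool.Agent.TH116.ZC.Defs

/-!
# The kernel of the Abel-Jacobi map in the middle degree: definitions
-/

open CategoryTheory AlgebraicGeometry

universe u v w

namespace Pool.Agent.TH116.ZC

open Pool.Agent.H914 Pool.Agent.H914.VarClass Pool.Agent.H914.VarClass.Obj Pool.Agent.W492.BB
  Pool.Agent.TH133

variable {k : Type u} [Field k] {𝒱 : VarClass k} {C : TheoryData.{u, v, 0} 𝒱 ℚ} {K : Type w}
  [Field K] {H : WeilTheoryData.{u, v, w} C K}

/-- If `X` has dimension `2 i - 1` and a self-correspondence `γ` of degree zero of `X` acts as zero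
on `H^j(X)` for all `j ≠ 2 i - 1`, then its action on the kernel of the Abel-Jacobi map
`CH^i(X)_hom → J^(2i-1)(X)` is locally nilpotent. (No condition on varieties of even dimension.) -/
def NilpotentOnMiddleKer (T : AbelJacobi H) (X : 𝒱.Obj) : Prop :=
  ∀ i : ℕ, X.dim + 1 = 2 * i → ∀ γ : C.A (X.prod X), C.Deg X.dim γ →
    (∀ j : ℤ, j ≠ X.dim → Kills H γ j) → ∀ z : C.A X, T.Ker i z → ∃ m : ℕ, (C.act γ)^[m] z = 0

end Pool.Agent.TH116.ZC
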