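import Pool.Agent.TH116.ZC.Nil

/-!
# Zero-cycles, cycles of middle codimension and Bloch-Beilinson filtrations
-/

open CategoryTheory AlgebraicGeometry

universe u v w

namespace Pool.Agent.TH116.ZC

open Pool.Agent.H914 Pool.Agent.H914.VarClass Pool.Agent.H914.VarClass.Obj Pool.Agent.W492.BB
  Pool.Agent.W550.Corr Pool.Agent.TH133

set_option linter.unusedSectionVars false

variable {k : Type u} [Field k] {𝒱 : VarClass k} {C : TheoryData.{u, v, 0} 𝒱 ℚ}
  [hC : IsChowProj C] {K : Type w} [Field K]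
  {H : WeilTheoryData.{u, v, w} C K} [hH : IsWeilProj H] {X Y Z W : 𝒱.Obj}

include hC hH

/-- If the cohomology of `X` in degree `j` factors through the varieties `D s` (with a shift by
`e`), then the classes `x = (π j)_* x` are detected by the parts of weight `j + 2 e` of the classes
`(f s)_* x` on `D s`. -/
theorem eq_zero_of_factor (hN : HomTrivialNilpotent H X) {π : ℕ → C.A (X.prod X)}
    (hπ : IsCK H X π) {j r : ℕ} {D : Fin r → 𝒱.Obj} {f : ∀ s, C.A (X.prod (D s))}
    {g : ∀ s, C.A ((D s).prod X)} {e : ℤ} (hf : ∀ s, f s ∈ C.gr (X.prod (D s)) (X.dim + e))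
    (hg : ∀ s, g s ∈ C.gr ((D s).prod X) ((D s).dim + (-e)))
    (hid : ∀ a ∈ H.gr X j, H.act (H.cl (∑ s, C.comp (f s) (g s))) a = a)
    {ρ : ∀ s, ℕ → C.A ((D s).prod (D s))}
    (hρ : ∀ s, IsCK H (D s) (ρ s)) {x : C.A X} (hx : C.act (π j) x = x)
    (h0 : ∀ s (b : ℕ), (b : ℤ) = j + 2 * e → C.act (ρ s b) (C.act (f s) x) = 0) : x = 0 := by
  let t : ∀ (s : Fin r) (b : ℕ), C.A (X.prod X) := fun s b =>
    C.comp (C.comp (C.comp (C.comp (π j) (f s)) (ρ s b)) (g s)) (π j)
  have hπ0 : π j ∈ C.gr (X.prod X) (X.dim + (0 : ℤ)) := by rw [add_zero]; exact hπ.deg j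
  have ht : ∀ s b, t s b ∈ C.gr (X.prod X) X.dim := by
    intro s b
    have h2 : ρ s b ∈ C.gr ((D s).prod (D s)) ((D s).dim + (0 : ℤ)) := by
      rw [add_zero]; exact (hρ s).deg b
    have := comp_mem C (comp_mem C (comp_mem C (comp_mem C hπ0 (hf s)) h2) (hg s)) hπ0
    have e1 : (X.dim : ℤ) + (0 + e + 0 + -e + 0) = X.dim := by ring
    rwa [e1] at this
  have ht0 : ∀ (s : Fin r) (b : ℕ), (b : ℤ) ≠ j + 2 * e → H.cl (t s b) = 0 := by
    intro s b hb
    apply hom_zero_of_act H
    intro a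
    have h4 : H.actL (X := X) (Y := X) (H.cl (t s b)) = 0 := by
      apply ext_gr H
      intro l a ha
      change H.act (H.cl (t s b)) a = 0
      rw [actH_comp, actH_comp, actH_comp, actH_comp, hπ.actH_eq j l ha]
      split_ifs with hl
      · have h5 := actH_mem H (hf s) ha
        rw [hl] at h5
        rw [(hρ s).actH_eq b _ h5, if_neg (Ne.symm hb), TheoryData.act_map_zero,
          TheoryData.act_map_zero]
      · rw [TheoryData.act_map_zero, TheoryData.act_map_zero, TheoryData.act_map_zero,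
          TheoryData.act_map_zero]
    exact LinearMap.congr_fun h4 a
  let S : Fin r → Finset ℕ := fun s => (Finset.range (2 * (D s).dim + 1)).filter
    fun b => (b : ℤ) ≠ j + 2 * e
  let G : C.A (X.prod X) := ∑ s, C.comp (f s) (g s)
  have hG : G ∈ C.gr (X.prod X) (X.dim + (0 : ℤ)) := by
    apply Submodule.sum_mem
    intro s _
    have := comp_mem C (hf s) (hg s)
    have e1 : (X.dim : ℤ) + (e + -e) = X.dim + 0 := by ring
    rwa [e1] at this
  let κ : C.A (X.prod X) := π j - C.comp (C.comp (π j) G) (π j)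
  have hκ : κ ∈ C.gr (X.prod X) X.dim := by
    apply Submodule.sub_mem _ (hπ.deg j)
    have := comp_mem C (comp_mem C hπ0 hG) hπ0
    rwa [add_zero, add_zero, add_zero] at this
  have hκ0 : H.cl κ = 0 := by
    apply hom_zero_of_act H
    intro a
    have h4 : H.actL (X := X) (Y := X) (H.cl κ) = 0 := by
      apply ext_gr H
      intro l a ha
      change H.act (H.cl (π j - C.comp (C.comp (π j) G) (π j))) a = 0
      rw [map_sub, TheoryData.act_sub, actH_comp, actH_comp, hπ.actH_eq j l ha]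
      split_ifs with hl
      · subst hl
        rw [hid a ha, hπ.act_self j a ha, sub_self]
      · rw [TheoryData.act_map_zero, TheoryData.act_map_zero, sub_zero]
    exact LinearMap.congr_fun h4 a
  let ν : C.A (X.prod X) := κ + ∑ s, ∑ b ∈ S s, t s b
  have hν : ν ∈ C.gr (X.prod X) X.dim :=
    Submodule.add_mem _ hκ (Submodule.sum_mem _ fun s _ => Submodule.sum_mem _ fun b _ => ht s b)
  have hν0 : H.cl ν = 0 := by
    change H.cl (κ + ∑ s, ∑ b ∈ S s, t s b) = 0
    rw [map_add, hκ0, zero_add, map_sum]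
    apply Finset.sum_eq_zero
    intro s _
    rw [map_sum]
    apply Finset.sum_eq_zero
    intro b hb
    exact ht0 s b (Finset.mem_filter.1 hb).2
  have hνx : C.act ν x = x := by
    have h1 : C.act G x = ∑ s, C.act (g s) (C.act (f s) x) := by
      change C.act (∑ s, C.comp (f s) (g s)) x = _
      rw [act_sum]
      exact Finset.sum_congr rfl fun s _ => C.act_comp _ _ _
    have h2 : C.act (∑ s, ∑ b ∈ S s, t s b) x = C.act (π j) (C.act G x) := by
      rw [h1, act_sum, act_map_sum]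
      apply Finset.sum_congr rfl
      intro s _
      rw [act_sum]
      have h2 : C.act (f s) x = ∑ b ∈ Finset.range (2 * (D s).dim + 1),
          C.act (ρ s b) (C.act (f s) x) := by
        rw [← act_sum, (hρ s).sum, act_dg]
      rw [h2, act_map_sum, act_map_sum, Finset.sum_filter]
      apply Finset.sum_congr rfl
      intro b _
      split_ifs with hb
      · rw [C.act_comp, C.act_comp, C.act_comp, C.act_comp, hx]
      · rw [h0 s b (not_not.1 hb), TheoryData.act_map_zero, TheoryData.act_map_zero]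
    have h3 : C.act κ x = x - C.act (π j) (C.act G x) := by
      change C.act (π j - C.comp (C.comp (π j) G) (π j)) x = _
      rw [TheoryData.act_sub, C.act_comp, C.act_comp, hx]
    change C.act (κ + ∑ s, ∑ b ∈ S s, t s b) x = x
    rw [TheoryData.act_add, h2, h3, sub_add_cancel]
  obtain ⟨n, hn⟩ := hN ν hν hν0
  have h3 : (C.act ν)^[n] x = x := by
    clear hn
    induction n with
    | zero => rfl
    | succ n ih => rw [Function.iterate_succ_apply, hνx, ih]
  rw [← h3, ← corPow_iterate inferInstance, hn, TheoryData.act_zero]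

/-- The vanishing of the action on zero-cycles gives a factorization. -/
lemma factors_of_kills_zeroCycles (hG : HasGenericPoints C) (hX : 0 < X.dim)
    {γ : C.A (X.prod Y)} (hγ : C.Deg X.dim γ)
    (h : ∀ z : C.A X, z ∈ C.gr X X.dim → C.act γ z = 0) :
    FactorsThroughDim C (X.dim - 1) γ := by
  obtain ⟨η, hη, h1⟩ := hG X hX (fun _ => Y) (fun _ => γ) (fun _ => hγ)
  exact h1 0 (h η hη)

/-- The second half of (B): `π j` acts as zero on `CH^i(X)` for `j < i`. -/
theorem act_zero_low (hA : ∀ X : 𝒱.Obj, ∃ π : ℕ → C.A (X.prod X), IsCK H X π)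
    (hN : ∀ X : 𝒱.Obj, HomTrivialNilpotent H X) (hL : ∀ X : 𝒱.Obj, LowDegreesFactor H X)
    (n : ℕ) : ∀ X : 𝒱.Obj, X.dim = n → ∀ π : ℕ → C.A (X.prod X), IsCK H X π →
      ∀ i j : ℕ, j < i → ∀ x ∈ C.gr X i, C.act (π j) x = 0 := by
  induction n using Nat.strong_induction_on with
  | _ n ih =>
    intro X hX π hπ i j hji x hx
    by_cases hin : n < i
    · rw [hC.gr_top X i x hx (by rw [hX]; exact_mod_cast hin), TheoryData.act_map_zero]
    obtain ⟨γ, ⟨r, D, f, g, hfg, hs⟩, hid⟩ := hL X j (by omega)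
    choose ρ hρ using fun s => hA (D s)
    apply eq_zero_of_factor (hN X) hπ (j := j) (f := f) (g := g) (e := 0)
      (fun s => by rw [add_zero]; exact (hfg s).2.1)
      (fun s => by rw [neg_zero, add_zero]; exact (hfg s).2.2) (by rw [← hs]; exact hid) hρ
    · rw [← C.act_comp, hπ.idem]
    · intro s b hb
      have hbj : b = j := by omega
      rw [hbj]
      apply ih (n - 1) (by omega) (D s) (by rw [(hfg s).1, hX]) (ρ s) (hρ s) i j hji
      have h1 : f s ∈ C.gr (X.prod (D s)) (X.dim + (0 : ℤ)) := by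
        rw [add_zero]; exact (hfg s).2.1
      have := act_mem' C h1 (act_mem0 C (hπ.deg j) hx)
      rwa [add_zero] at this

theorem murreB1_of_lowDegrees (hA : ∀ X : 𝒱.Obj, ∃ π : ℕ → C.A (X.prod X), IsCK H X π)
    (hN : ∀ X : 𝒱.Obj, HomTrivialNilpotent H X) (hL : ∀ X : 𝒱.Obj, LowDegreesFactor H X)
    (X : 𝒱.Obj) : MurreB1 H X := by
  intro π hπ i
  rw [eq_bot_iff]
  intro x hx
  rw [hπ.mem_ckFil] at hx
  rw [Submodule.mem_bot]
  have h1 : x = ∑ j ∈ Finset.range (2 * X.dim + 1), C.act (π j) x := by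
    rw [← act_sum, hπ.sum, act_dg]
  rw [h1]
  apply Finset.sum_eq_zero
  intro j _
  by_cases hj : i ≤ j
  · exact hx.2 j (by omega)
  · exact act_zero_low hA hN hL X.dim X rfl π hπ i j (by omega) x hx.1

/-! ### Exterior products with classes on curves -/

lemma act_prodCK_ext {π : ℕ → C.A (X.prod X)} {τ : ℕ → C.A (Z.prod Z)} {x : C.A X} {y : C.A Z}
    {j q : ℕ} (hx : ∀ p, C.act (π p) x = if p = j then x else 0) (hq : j ≤ q) :
    C.act (prodCK C π τ q) (C.ext x y) = C.ext x (C.act (τ (q - j)) y) := by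
  unfold prodCK
  rw [act_sum, Finset.sum_eq_single j]
  · rw [act_tens_ext', hx, if_pos rfl]
  · intro p _ hp
    rw [act_tens_ext', hx, if_neg hp, TheoryData.ext_zero_left]
  · intro h
    rw [Finset.mem_range] at h
    omega

lemma act_component {π : ℕ → C.A (X.prod X)} (hπ : IsCK H X π) (j : ℕ) (x : C.A X) (p : ℕ) :
    C.act (π p) (C.act (π j) x) = if p = j then C.act (π j) x else 0 := by
  rw [← C.act_comp, hπ.comp_eq]
  by_cases h : p = j
  · rw [if_pos h, if_pos h.symm]
  · rw [if_neg h, if_neg (Ne.symm h), TheoryData.act_zero]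

omit hH in
/-- A class is detected by its exterior product with a zero-cycle of degree one. -/
lemma eq_zero_of_ext {x : C.A X} {w : C.A Z} (hw : HasDegree C w 1) (h : C.ext x w = 0) :
    x = 0 := by
  have h1 : C.push (fst X Z) (C.ext x w) = x := by
    rw [TheoryData.ext, C.proj_left, (hw X).2, one_smul, mul_one]
  rw [← h1, h, map_zero]

omit hH in
lemma eq_zero_of_ext_one {x : C.A X} {w : C.A Z} (hw : HasDegree C w 1)
    (h : C.ext x (1 : C.A Z) = 0) : x = 0 := by
  apply eq_zero_of_ext hw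
  have h1 : C.ext x w = C.ext x (1 : C.A Z) * C.pull (snd X Z) w := by
    rw [TheoryData.ext, TheoryData.ext, map_one, mul_one]
  rw [h1, h, zero_mul]

/-- The component of top weight of a zero-cycle of degree one has degree one. -/
lemma hasDegree_act_top {τ : ℕ → C.A (Z.prod Z)} (hτ : IsCK H Z τ) {w : C.A Z}
    (hw : w ∈ C.gr Z Z.dim) (hd : HasDegree C w 1) : HasDegree C (C.act (τ (2 * Z.dim)) w) 1 := by
  have h1 : C.act (τ (2 * Z.dim)) w ∈ C.gr Z Z.dim := act_mem0 C (hτ.deg _) hw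
  have h2 : HasDegree C (C.act (τ (2 * Z.dim)) w - w) 0 := by
    apply hasDegree_zero_of_cl H (Submodule.sub_mem _ h1 hw)
    rw [map_sub, cl_act_self hτ hw, sub_self]
  intro V
  have h3 := h2 V
  rw [map_sub, map_sub, map_sub, map_sub, (hd V).1, (hd V).2, zero_smul, sub_eq_zero,
    sub_eq_zero] at h3
  exact h3

lemma act_bot_one {τ : ℕ → C.A (Z.prod Z)} (hτ : IsCK H Z τ) :
    C.act (τ 0) (1 : C.A Z) = 1 := by
  rw [← sub_eq_zero]
  have h1 : (1 : C.A Z) ∈ C.gr Z 0 := C.one_mem Z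
  apply eq_zero_of_gr_zero (H := H) (Submodule.sub_mem _ (act_mem0 C (hτ.deg 0) h1) h1)
  have h2 := cl_act_self hτ (i := 0) (by exact_mod_cast h1)
  rw [mul_zero] at h2
  rw [map_sub, h2, sub_self]

variable (H) in
omit hH in
lemma exists_curve (hE : HasGenericCurves C) (X : 𝒱.Obj) : ∃ T : 𝒱.Obj, T.dim = 1 := by
  obtain ⟨T, t, hT, -⟩ := hE X fun _ => 0
  exact ⟨T, hT⟩

/-- A family of classes which is stable under self-correspondences of degree zero and under
exterior products with classes on curves. -/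
structure IsStableFamily (C : TheoryData.{u, v, 0} 𝒱 ℚ) (S : ∀ X : 𝒱.Obj, ℕ → C.A X → Prop) :
    Prop where
  deg : ∀ {X : 𝒱.Obj} {i : ℕ} {x : C.A X}, S X i x → C.Deg i x
  act : ∀ {X : 𝒱.Obj} {i : ℕ} {x : C.A X} {γ : C.A (X.prod X)}, C.Deg X.dim γ → S X i x →
    S X i (C.act γ x)
  ext : ∀ {X T : 𝒱.Obj} {i a : ℕ} {x : C.A X} {y : C.A T}, T.dim = 1 → C.Deg a y → S X i x →
    S (X.prod T) (i + a) (C.ext x y)

omit hC hH in
lemma isStableFamily_gr [hC : IsChowProj C] :
    IsStableFamily C (fun X i (x : C.A X) => C.Deg i x) where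
  deg h := h
  act hγ h := act_mem0 C hγ h
  ext _ hy hx := by
    have := ext_mem' hx hy
    exact_mod_cast this

omit hC hH in
lemma isStableFamily_hom [hC : IsChowProj C] [hH : IsWeilProj H] :
    IsStableFamily C (fun X i (x : C.A X) => C.Deg i x ∧ H.cl x = 0) where
  deg h := h.1
  act hγ h := ⟨act_mem0 C hγ h.1, act_cl_zero _ h.2⟩
  ext _ hy hx := ⟨by
    have := ext_mem' hx.1 hy
    exact_mod_cast this, by
    rw [TheoryData.ext, map_mul, H.cl_pull, hx.2, map_zero, zero_mul]⟩

/-- The classes in a stable family have no components of weight `≥ 2 i + c` if this holds for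
varieties of dimension `2 i + c` and for the weight `2 i + c`. -/
theorem act_zero_ge (hE : HasGenericCurves C) {S : ∀ X : 𝒱.Obj, ℕ → C.A X → Prop}
    (hS : IsStableFamily C S) {c : ℤ}
    (hM : ∀ (X : 𝒱.Obj) (i : ℕ), (X.dim : ℤ) = 2 * i + c → ∀ γ : C.A (X.prod X),
      C.Deg X.dim γ → (∀ j : ℤ, j ≠ X.dim → Kills H γ j) → ∀ z, S X i z →
        ∃ m : ℕ, (C.act γ)^[m] z = 0) (m : ℕ) :
    ∀ (X : 𝒱.Obj) (π : ℕ → C.A (X.prod X)), IsCK H X π → ∀ i j : ℕ, (j : ℤ) = 2 * i + c + m →
      ∀ x, S X i x → C.act (π j) x = 0 := by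
  induction m with
  | zero =>
    have h0 : ∀ (X : 𝒱.Obj) (π : ℕ → C.A (X.prod X)), IsCK H X π →
        ∀ i j : ℕ, (j : ℤ) = 2 * i + c → X.dim = j → ∀ x, S X i x → C.act (π j) x = 0 := by
      intro X π hπ i j hj hd x hx
      obtain ⟨m, hm⟩ := hM X i (by omega) (π j) (hπ.deg _)
        (fun l hl a ha => hπ.act_ne _ l a (by omega) ha) x hx
      exact act_zero_of_iterate (H := H) (hπ.idem _) hm
    have h1 : ∀ (δ : ℕ) (X : 𝒱.Obj) (π : ℕ → C.A (X.prod X)), IsCK H X π →
        ∀ i j : ℕ, (j : ℤ) = 2 * i + c → X.dim = j + δ → ∀ x, S X i x →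
          C.act (π j) x = 0 := by
      intro δ
      induction δ with
      | zero => exact fun X π hπ i j hj hd x hx => h0 X π hπ i j hj (by omega) x hx
      | succ δ ih =>
        intro X π hπ i j hj hd x hx
        obtain ⟨T, hT⟩ := exists_curve hE X
        obtain ⟨τ, hτ, -⟩ := exists_CK_curve (C := C) H T hT
        obtain ⟨w, hw, hdw⟩ := exists_hasDegree_one (C := C) H T
        have h2 := ih (X.prod T) (prodCK C π τ) (hπ.prod hτ) (i + 1) (j + 2)
          (by push_cast; omega) (by rw [dim_prod, hT]; omega) (C.ext (C.act (π j) x) w)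
          (hS.ext hT (by rw [hT] at hw; exact_mod_cast hw) (hS.act (hπ.deg _) hx))
        rw [act_prodCK_ext (H := H) (j := j) (act_component hπ _ _) (by omega)] at h2
        have e1 : j + 2 - j = 2 * T.dim := by rw [hT]; omega
        rw [e1] at h2
        exact eq_zero_of_ext (hasDegree_act_top hτ hw hdw) h2
    have h2 : ∀ (δ : ℕ) (X : 𝒱.Obj) (π : ℕ → C.A (X.prod X)), IsCK H X π →
        ∀ i j : ℕ, (j : ℤ) = 2 * i + c → X.dim + δ = j → ∀ x, S X i x →
          C.act (π j) x = 0 := by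
      intro δ
      induction δ with
      | zero => exact fun X π hπ i j hj hd x hx => h0 X π hπ i j hj (by omega) x hx
      | succ δ ih =>
        intro X π hπ i j hj hd x hx
        obtain ⟨T, hT⟩ := exists_curve hE X
        obtain ⟨τ, hτ, -⟩ := exists_CK_curve (C := C) H T hT
        obtain ⟨w, hw, hdw⟩ := exists_hasDegree_one (C := C) H T
        have h2 := ih (X.prod T) (prodCK C π τ) (hπ.prod hτ) (i + 0) j
          (by push_cast; omega) (by rw [dim_prod, hT]; omega) (C.ext (C.act (π j) x) 1)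
          (hS.ext hT (by exact_mod_cast C.one_mem T) (hS.act (hπ.deg _) hx))
        rw [act_prodCK_ext (H := H) (j := j) (act_component hπ _ _) le_rfl, Nat.sub_self,
          act_bot_one hτ] at h2
        exact eq_zero_of_ext_one hdw h2
    intro X π hπ i j hij x hx
    rcases le_total j X.dim with h | h
    · exact h1 (X.dim - j) X π hπ i j (by omega) (by omega) x hx
    · exact h2 (j - X.dim) X π hπ i j (by omega) (by omega) x hx
  | succ m ih =>
    intro X π hπ i j hij x hx
    obtain ⟨T, t, hT, ht, hd, hE'⟩ := hE X fun _ => C.act (π j) x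
    refine hE' 0 ?_
    obtain ⟨τ, hτ, hτ1⟩ := exists_CK_curve (C := C) H T hT
    have h2 := ih (X.prod T) (prodCK C π τ) (hπ.prod hτ) (i + 1) (j + 1) (by push_cast at *; omega)
      (C.ext (C.act (π j) x) t) (hS.ext hT (by exact_mod_cast ht) (hS.act (hπ.deg _) hx))
    rw [act_prodCK_ext (H := H) (j := j) (act_component hπ _ _) (by omega), Nat.add_sub_cancel_left,
      hτ1 t ht hd, if_pos rfl] at h2
    exact h2

/-- Murre's conjecture (D) from the vanishing of the components of high weight. -/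
lemma murreD_of_high (h : ∀ (π : ℕ → C.A (X.prod X)), IsCK H X π → ∀ i j : ℕ, 2 * i ≤ j →
    ∀ x, C.Deg i x → H.cl x = 0 → C.act (π j) x = 0) : MurreD H X := by
  intro π hπ i x
  rw [hπ.mem_ckFil]
  constructor
  · rintro ⟨hx, hx'⟩
    refine ⟨hx, ?_⟩
    rw [← cl_act_self hπ hx, hx' (2 * i) (by omega), map_zero]
  · rintro ⟨hx, hx'⟩
    exact ⟨hx, fun j hj => h π hπ i j (by omega) x hx hx'⟩

theorem murreD_of_middle (hE : HasGenericCurves C)
    (hM : ∀ X : 𝒱.Obj, NilpotentInMiddleCodim H X) (X : 𝒱.Obj) : MurreD H X := by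
  apply murreD_of_high
  intro π hπ i j hij x hx hx0
  exact act_zero_ge hE (isStableFamily_hom (H := H)) (c := 0)
    (fun X i hd γ hγ hkill z hz => hM X i (by omega) γ hγ hkill z hz.1 hz.2) (j - 2 * i) X π hπ i j
    (by omega) x ⟨hx, hx0⟩

/-- The first half of (B) from nilpotence below the middle codimension. -/
theorem murreB0_of_belowMiddle (hE : HasGenericCurves C)
    (hM : ∀ X : 𝒱.Obj, NilpotentBelowMiddleCodim H X) (X : 𝒱.Obj) : MurreB0 H X := by
  rw [murreB0_iff]
  intro π hπ i j x hx hj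
  exact act_zero_ge hE isStableFamily_gr (c := 1)
    (fun X i hd γ hγ hkill z hz => hM X i (by omega) γ hγ hkill z hz) (j - (2 * i + 1)) X π hπ i j
    (by omega) x hx

/-- The lower half of (B) for zero-cycles. -/
theorem act_zero_zeroCycles (hE : HasGenericCurves C)
    (hZ : ∀ X : 𝒱.Obj, NilpotentOnZeroCycles H X) (m : ℕ) :
    ∀ (X : 𝒱.Obj) (π : ℕ → C.A (X.prod X)), IsCK H X π → ∀ j : ℕ, j + 1 + m = X.dim →
      ∀ z ∈ C.gr X X.dim, C.act (π j) z = 0 := by
  induction m with
  | zero =>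
    intro X π hπ j hj z hz
    obtain ⟨m, hm⟩ := hZ X (π j) (hπ.deg _) (fun l hl a ha => hπ.act_ne _ l a (by omega) ha) z hz
    exact act_zero_of_iterate (H := H) (hπ.idem _) hm
  | succ m ih =>
    intro X π hπ j hj z hz
    obtain ⟨T, hT⟩ := exists_curve hE X
    obtain ⟨τ, hτ, -⟩ := exists_CK_curve (C := C) H T hT
    obtain ⟨w, hw, hd⟩ := exists_hasDegree_one (C := C) H T
    have hz' : C.act (π j) z ∈ C.gr X X.dim := act_mem0 C (hπ.deg _) hz
    have h2 := ih (X.prod T) (prodCK C π τ) (hπ.prod hτ) (j + 2) (by rw [dim_prod, hT]; omega)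
      (C.ext (C.act (π j) z) w)
      (by
        have := ext_mem' hz' hw
        rw [dim_prod]
        exact_mod_cast this)
    rw [act_prodCK_ext (H := H) (j := j) (act_component hπ _ _) (by omega)] at h2
    have e1 : j + 2 - j = 2 * T.dim := by rw [hT]; omega
    rw [e1] at h2
    exact eq_zero_of_ext (hasDegree_act_top hτ hw hd) h2

lemma homTrivialNilpotentOnZeroCycles_of (h : NilpotentOnZeroCycles H X) :
    HomTrivialNilpotentOnZeroCycles H X := by
  intro γ hγ h0 z hz
  exact h γ hγ (fun j _ a _ => by rw [h0, TheoryData.act_zero]) z hz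

/-- The action of `(Δ × γ) × Δ_T` on `γ × t` is `γ² × t`. -/
lemma iterate_tens (γ : C.A (X.prod X)) (t : C.A Y) (m : ℕ) :
    (C.act (tens C (tens C (dg C X) γ) (dg C Y)))^[m] (C.ext γ t) =
      C.ext (corPow C γ (m + 1)) t := by
  induction m with
  | zero =>
    change C.ext γ t = C.ext (C.comp (dg C X) γ) t
    rw [dg_comp]
  | succ m ih =>
    rw [Function.iterate_succ_apply', ih, act_tens_ext', act_dg, act_tens_dg (H := H)]
    rfl

lemma tens_tens_mem {γ : C.A (X.prod X)} (hγ : C.Deg X.dim γ) :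
    C.Deg ((X.prod X).prod Y).dim (tens C (tens C (dg C X) γ) (dg C Y)) := by
  have h1 := tens_mem C (tens_mem C (dg_mem C X) hγ) (dg_mem C Y)
  have e1 : (((X.prod X).prod Y).dim : ℤ) = X.dim + X.dim + Y.dim := by
    rw [dim_prod, dim_prod]; push_cast; ring
  change _ ∈ C.gr _ _
  rw [e1]
  exact h1

lemma tens_tens_cl {γ : C.A (X.prod X)} (h0 : H.cl γ = 0) :
    H.cl (tens C (tens C (dg C X) γ) (dg C Y)) = 0 := by
  have h1 : H.cl (tens C (dg C X) γ) = 0 := cl_tens_zero (Y := X) (W := X) h0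
  rw [tens, map_mul, H.cl_pull (prodMap (fst (X.prod X) Y) (fst (X.prod X) Y)) (tens C (dg C X) γ),
    h1, map_zero, zero_mul]

/-- Nilpotence of homologically trivial self-correspondences of `X` from nilpotence in the middle
codimension on `X × X`. -/
theorem homTrivialNilpotent_of_middle (hM : NilpotentInMiddleCodim H (X.prod X)) :
    HomTrivialNilpotent H X := by
  have main : ∀ γ : Cor C X, γ ∈ cor0 C X → H.cl (X := X.prod X) γ = 0 → ∃ m : ℕ, γ ^ m = 0 := by
    intro γ hγ hcl
    have hG : H.cl (tens C (dg C X) γ) = 0 := cl_tens_zero (Y := X) (W := X) hcl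
    obtain ⟨m, hm⟩ := hM X.dim (by rw [dim_prod]; ring) (tens C (dg C X) γ) (by
        have := tens_mem C (dg_mem C X) hγ
        have e1 : ((X.prod X).dim : ℤ) = X.dim + X.dim := by rw [dim_prod]; push_cast; ring
        change _ ∈ C.gr _ _
        rw [e1]
        exact this)
      (fun j _ a _ => by rw [hG, TheoryData.act_zero]) γ hγ hcl
    refine ⟨m + 1, ?_⟩
    rw [← iterate_mul γ (fun z => C.act (tens C (dg C X) γ) z) (fun z => act_tens_dg (H := H) γ z)]
    exact hm
  intro γ hγ hcl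
  obtain ⟨m, hm⟩ := main γ hγ hcl
  exact ⟨m, (corPow_eq γ m).trans hm⟩

/-- Nilpotence of homologically trivial self-correspondences of `X` from nilpotence below the middle
codimension on `X × X × T` for a curve `T`. -/
theorem homTrivialNilpotent_of_belowMiddle (hE : HasGenericCurves C)
    (hM : ∀ X : 𝒱.Obj, NilpotentBelowMiddleCodim H X) (X : 𝒱.Obj) : HomTrivialNilpotent H X := by
  intro γ hγ hcl
  obtain ⟨T, hT⟩ := exists_curve hE X
  obtain ⟨w, hw, hdw⟩ := exists_hasDegree_one (C := C) H T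
  have hG := tens_tens_cl (Y := T) hcl
  obtain ⟨m, hm⟩ := hM ((X.prod X).prod T) X.dim (by rw [dim_prod, dim_prod, hT]; ring)
    (tens C (tens C (dg C X) γ) (dg C T)) (tens_tens_mem (H := H) hγ)
    (fun j _ a _ => by rw [hG, TheoryData.act_zero]) (C.ext γ 1) (by
      have := ext_mem' hγ (C.one_mem T)
      rwa [add_zero] at this)
  rw [iterate_tens (H := H)] at hm
  exact ⟨m + 1, eq_zero_of_ext_one hdw hm⟩

theorem exists_CK_of_nilpotent (hK : KunnethConjecture H) (hN : HomTrivialNilpotent H X) :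
    ∃ π : ℕ → C.A (X.prod X), IsCK H X π := by
  apply exists_CK_of_nil X
  · intro m
    obtain ⟨p, hp, hp'⟩ := hK X m
    exact ⟨p, hp, hp'⟩
  · intro γ hγ h0
    obtain ⟨m, hm⟩ := hN γ hγ ((homTrivial_iff H γ).2 h0)
    exact ⟨m, by rw [← corPow_eq]; exact hm⟩

/-- The factorization of the cohomology in low degrees from nilpotence on zero-cycles. -/
theorem lowDegreesFactor_of_zeroCycles (hG : HasGenericPoints C) (hE : HasGenericCurves C)
    (hA : ∃ π : ℕ → C.A (X.prod X), IsCK H X π)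
    (hZ : ∀ X : 𝒱.Obj, NilpotentOnZeroCycles H X) : LowDegreesFactor H X := by
  intro j hj
  obtain ⟨π, hπ⟩ := hA
  refine ⟨π j, factors_of_kills_zeroCycles (H := H) hG (by omega) (hπ.deg j) fun z hz =>
    act_zero_zeroCycles hE hZ (X.dim - 1 - j) X π hπ j (by omega) z hz, hπ.act_self j⟩

/-- **Bloch-Beilinson filtrations, zero-cycles and cycles of middle codimension.** -/
theorem isBB_tfae_middle (hK : KunnethConjecture H) (hG : HasGenericPoints C)
    (hE : HasGenericCurves C) :
    List.TFAE [∃ F : Filtration C, IsBB H F,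
      (∀ X : 𝒱.Obj, NilpotentInMiddleCodim H X) ∧ ∀ X : 𝒱.Obj, NilpotentOnZeroCycles H X,
      (∀ X : 𝒱.Obj, NilpotentInMiddleCodim H X) ∧ ∀ X : 𝒱.Obj, LowDegreesFactor H X] := by
  tfae_have 1 → 2 := by
    intro h
    have h1 : ∀ (X : 𝒱.Obj) (i : ℕ), NilpotentOnHom H X i := ((isBB_tfae hK).out 0 1).1 h
    refine ⟨fun X i hi γ hγ hkill z hz hz0 => ?_, fun X γ hγ hkill z hz => ?_⟩
    · exact h1 X i γ hγ (fun j _ hj => hkill j (by omega)) z hz hz0
    · have h2 : H.cl (C.act γ z) = 0 := by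
        rw [cl_act H]
        exact hkill (2 * X.dim) (by omega) _ (by exact_mod_cast H.cl_mem hz)
      obtain ⟨m, hm⟩ := h1 X X.dim γ hγ (fun j hj _ => hkill j (by omega)) _ (act_mem0 C hγ hz) h2
      exact ⟨m + 1, by rw [Function.iterate_succ_apply]; exact hm⟩
  tfae_have 2 → 3 := by
    rintro ⟨hM, hZ⟩
    exact ⟨hM, fun X => lowDegreesFactor_of_zeroCycles hG hE
      (exists_CK_of_nilpotent hK (homTrivialNilpotent_of_middle (hM _))) hZ⟩
  tfae_have 3 → 1 := by
    rintro ⟨hM, hL⟩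
    have hN : ∀ X : 𝒱.Obj, HomTrivialNilpotent H X := fun X => homTrivialNilpotent_of_middle (hM _)
    have hA : ∀ X : 𝒱.Obj, ∃ π : ℕ → C.A (X.prod X), IsCK H X π := fun X =>
      exists_CK_of_nilpotent hK (hN X)
    exact exists_isBB hA (murreD_of_middle hE hM) (murreB1_of_lowDegrees hA hN hL)
  tfae_finish

/-- **Murre's conjecture (B), zero-cycles and cycles below the middle codimension.** -/
theorem murreB_tfae_middle (hK : KunnethConjecture H) (hG : HasGenericPoints C)
    (hE : HasGenericCurves C) :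
    List.TFAE [∀ X : 𝒱.Obj, (∃ π : ℕ → C.A (X.prod X), IsCK H X π) ∧
        (MurreB0 H X ∧ MurreB1 H X) ∧ HomTrivialNilpotent H X,
      (∀ X : 𝒱.Obj, NilpotentBelowMiddleCodim H X) ∧ ∀ X : 𝒱.Obj, NilpotentOnZeroCycles H X,
      (∀ X : 𝒱.Obj, NilpotentBelowMiddleCodim H X) ∧ ∀ X : 𝒱.Obj, LowDegreesFactor H X] := by
  tfae_have 1 → 2 := by
    intro h
    have h1 : ∀ (X : 𝒱.Obj) (i : ℕ), NilpotentOnChow H X i := (murreB_iff hK).2 h
    refine ⟨fun X i hi γ hγ hkill z hz => ?_, fun X γ hγ hkill z hz => ?_⟩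
    · exact h1 X i γ hγ (fun j _ hj => hkill j (by omega)) z hz
    · exact h1 X X.dim γ hγ (fun j hj _ => hkill j (by omega)) z hz
  tfae_have 2 → 3 := by
    rintro ⟨hM, hZ⟩
    exact ⟨hM, fun X => lowDegreesFactor_of_zeroCycles hG hE
      (exists_CK_of_nilpotent hK (homTrivialNilpotent_of_belowMiddle hE hM X)) hZ⟩
  tfae_have 3 → 1 := by
    rintro ⟨hM, hL⟩
    have hN : ∀ X : 𝒱.Obj, HomTrivialNilpotent H X := homTrivialNilpotent_of_belowMiddle hE hM
    have hA : ∀ X : 𝒱.Obj, ∃ π : ℕ → C.A (X.prod X), IsCK H X π := fun X =>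
      exists_CK_of_nilpotent hK (hN X)
    exact fun X => ⟨hA X, ⟨murreB0_of_belowMiddle hE hM X, murreB1_of_lowDegrees hA hN hL X⟩, hN X⟩
  tfae_finish

end Pool.Agent.TH116.ZC
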