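import Pool.Agent.TH133.AJAlg
import Pool.Agent.TH116.ZC.Murre
import Pool.Agent.TH116.ZC.DefsAJ

/-!
# The kernel of the Abel-Jacobi map in the middle degree
-/

open CategoryTheory AlgebraicGeometry

universe u v w

namespace Pool.Agent.TH116.ZC

open Pool.Agent.H914 Pool.Agent.H914.VarClass Pool.Agent.H914.VarClass.Obj Pool.Agent.W492.BB
  Pool.Agent.W550.Corr Pool.Agent.TH133

set_option linter.unusedSectionVars false

variable {k : Type u} [Field k] {𝒱 : VarClass k} {C : TheoryData.{u, v, 0} 𝒱 ℚ}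
  [hC : IsChowProj C] {K : Type w} [Field K]
  {H : WeilTheoryData.{u, v, w} C K} [hH : IsWeilProj H] {X Y Z W : 𝒱.Obj}

include hC hH

/-- The exterior product with a class is given by a correspondence. -/
lemma exists_ext {a : ℕ} {y : C.A Y} (hy : C.Deg a y) (X : 𝒱.Obj) :
    ∃ A : C.A (X.prod (X.prod Y)), C.Deg (X.dim + a : ℕ) A ∧ (∀ x, C.act A x = C.ext x y) ∧
      ∀ b : H.A X, H.act (H.cl A) b = H.pull (snd X Y) (H.cl y) * H.pull (fst X Y) b := by
  obtain ⟨A, hA, hA1, hA2⟩ := ((Realised.pull (H := H) (fst X Y)).comp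
    (Realised.mul (H := H) (C.pull_mem (snd X Y) hy)))
  refine ⟨A, ?_, fun x => ?_, fun b => ?_⟩
  · push_cast
    rw [zero_add] at hA
    exact hA
  · rw [hA1]
    exact ch_comm C _ _
  · rw [hA2, H.cl_pull]

lemma isStableFamily_ker {T : AbelJacobi H} (hT : T.IsFunctorial) :
    IsStableFamily C (fun X i (x : C.A X) => T.Ker i x) where
  deg h := h.1.1
  act hγ h := ker_act hT hγ rfl h
  ext {X Y i a x y} _ hy hx := by
    obtain ⟨A, hA, hA1, -⟩ := exists_ext (H := H) hy X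
    have := ker_act hT hA (j := i + a) (by ring) hx
    rwa [hA1] at this

/-- The exterior product of a homologically trivial cycle with a zero-cycle of degree zero on a
curve lies in the kernel of the Abel-Jacobi map. -/
lemma ker_ext {T : AbelJacobi H} (hT : T.IsFunctorial) {i : ℕ} {x : C.A X} (hx : C.Deg i x)
    (hx0 : H.cl x = 0) {t : C.A Y} (hY : Y.dim = 1) (ht : C.Deg 1 t) (hd : HasDegree C t 0) :
    T.Ker (i + 1) (C.ext x t) := by
  obtain ⟨A, hA, hA1, hA2⟩ := exists_ext (H := H) (a := 1) (by exact_mod_cast ht) X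
  have h0 : H.cl t = 0 := cl_zero_of_degree (H := H) (by rw [hY]; exact_mod_cast ht) hd
  have := ker_of_kills hT hA (j := i + 1) (by ring)
    (fun b _ => by rw [hA2, h0, map_zero, zero_mul]) (z := x) ⟨hx, hx0⟩
  rwa [hA1] at this

theorem act_zero_ker (hE : HasGenericCurves C) {T : AbelJacobi H} (hT : T.IsFunctorial)
    (hM : ∀ X : 𝒱.Obj, NilpotentOnMiddleKer T X) {π : ℕ → C.A (X.prod X)} (hπ : IsCK H X π)
    {i j : ℕ} (hj : 2 * i ≤ j + 1) {x : C.A X} (hx : T.Ker i x) : C.act (π j) x = 0 :=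
  act_zero_ge hE (isStableFamily_ker hT) (c := -1)
    (fun X i hd γ hγ hkill z hz => hM X i (by omega) γ hγ hkill z hz) (j + 1 - 2 * i) X π hπ i j
    (by omega) x hx

theorem murreD_of_middleKer (hE : HasGenericCurves C) {T : AbelJacobi H} (hT : T.IsFunctorial)
    (hM : ∀ X : 𝒱.Obj, NilpotentOnMiddleKer T X) (X : 𝒱.Obj) : MurreD H X := by
  apply murreD_of_high
  intro π hπ i j hij x hx hx0
  obtain ⟨Y, t, hY, ht, hd, hE'⟩ := hE X fun _ => C.act (π j) x
  refine hE' 0 ?_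
  obtain ⟨τ, hτ, hτ1⟩ := exists_CK_curve (C := C) H Y hY
  have h2 := act_zero_ker hE hT hM (hπ.prod hτ) (i := i + 1) (j := j + 1) (by omega)
    (ker_ext hT (act_mem0 C (hπ.deg j) hx) (act_cl_zero _ hx0) hY ht hd)
  rw [act_prodCK_ext (H := H) (j := j) (act_component hπ _ _) (by omega), Nat.add_sub_cancel_left,
    hτ1 t ht hd, if_pos rfl] at h2
  exact h2

theorem homTrivialNilpotent_of_middleKer (hE : HasGenericCurves C) {T : AbelJacobi H}
    (hT : T.IsFunctorial) (hM : ∀ X : 𝒱.Obj, NilpotentOnMiddleKer T X) (X : 𝒱.Obj) :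
    HomTrivialNilpotent H X := by
  intro γ hγ hcl
  obtain ⟨Y, t, hY, ht, hd, hE'⟩ := hE (X.prod X) fun n => corPow C γ (n + 1)
  have hG := tens_tens_cl (Y := Y) hcl
  obtain ⟨m, hm⟩ := hM ((X.prod X).prod Y) (X.dim + 1) (by rw [dim_prod, dim_prod, hY]; ring)
    (tens C (tens C (dg C X) γ) (dg C Y)) (tens_tens_mem (H := H) hγ)
    (fun j _ a _ => by rw [hG, TheoryData.act_zero]) (C.ext γ t) (ker_ext hT hγ hcl hY ht hd)
  rw [iterate_tens (H := H)] at hm
  exact ⟨m + 1, hE' m hm⟩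

/-- **Bloch-Beilinson filtrations, zero-cycles and the kernel of the Abel-Jacobi map in the middle
degree.** -/
theorem isBBAJ_tfae_middle (hK : KunnethConjecture H) (hG : HasGenericPoints C)
    (hE : HasGenericCurves C) {T : AbelJacobi H} (hT : T.IsFunctorial) :
    List.TFAE [∃ F : Filtration C, IsBBAJ T F,
      (∀ X : 𝒱.Obj, NilpotentOnMiddleKer T X) ∧ ∀ X : 𝒱.Obj, NilpotentOnZeroCycles H X,
      (∀ X : 𝒱.Obj, NilpotentOnMiddleKer T X) ∧ ∀ X : 𝒱.Obj, LowDegreesFactor H X] := by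
  tfae_have 1 → 2 := by
    intro h
    have h1 : ∀ (X : 𝒱.Obj) (i : ℕ), NilpotentOnKer T X i := ((isBBAJ_tfae hK hT).out 0 1).1 h
    refine ⟨fun X i hi γ hγ hkill z hz => ?_, fun X γ hγ hkill z hz => ?_⟩
    · exact h1 X i γ hγ (fun j _ hj => hkill j (by omega)) z hz
    · have h2 : H.cl (C.act γ z) = 0 := by
        rw [cl_act H]
        exact hkill (2 * X.dim) (by omega) _ (by exact_mod_cast H.cl_mem hz)
      obtain ⟨m, hm⟩ := nilpotentOnHom_of_ker hT (h1 X X.dim) γ hγ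
        (fun j hj _ => hkill j (by omega)) _ (act_mem0 C hγ hz) h2
      exact ⟨m + 1, by rw [Function.iterate_succ_apply]; exact hm⟩
  tfae_have 2 → 3 := by
    rintro ⟨hM, hZ⟩
    exact ⟨hM, fun X => lowDegreesFactor_of_zeroCycles hG hE
      (exists_CK_of_nilpotent hK (homTrivialNilpotent_of_middleKer hE hT hM X)) hZ⟩
  tfae_have 3 → 1 := by
    rintro ⟨hM, hL⟩
    have hN : ∀ X : 𝒱.Obj, HomTrivialNilpotent H X := homTrivialNilpotent_of_middleKer hE hT hM
    have hA : ∀ X : 𝒱.Obj, ∃ π : ℕ → C.A (X.prod X), IsCK H X π := fun X =>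
      exists_CK_of_nilpotent hK (hN X)
    have hB := murreB1_of_lowDegrees hA hN hL
    choose π hπ using hA
    have hD : ∀ X : 𝒱.Obj, MurreD H X := murreD_of_middleKer hE hT hM
    refine ⟨ckFiltration C H π hπ, isBBCorr_ck π hπ hD hB, ?_⟩
    intro X i x
    change x ∈ ckFil C (π X) i 2 ↔ _
    constructor
    · exact fun hx => ker_of_two hT (hD X) (hπ X) hx
    · intro hx
      rw [(hπ X).mem_ckFil]
      exact ⟨hx.1.1, fun j hj => act_zero_ker hE hT hM (hπ X) (by omega) hx⟩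
  tfae_finish

end Pool.Agent.TH116.ZC
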