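import Pool.Agent.TH133.MurreNil
import Pool.Agent.TH116.ZC.Defs

/-!
# Nilpotence on zero-cycles implies nilpotence
-/

open CategoryTheory AlgebraicGeometry

universe u v w

namespace Pool.Agent.TH116.ZC

open Pool.Agent.H914 Pool.Agent.H914.VarClass Pool.Agent.H914.VarClass.Obj Pool.Agent.W492.BB
  Pool.Agent.W550.Corr Pool.Agent.TH133

set_option linter.unusedSectionVars false

variable {k : Type u} [Field k] {𝒱 : VarClass k} {C : TheoryData.{u, v, 0} 𝒱 ℚ}
  [hC : IsChowProj C] {K : Type w} [Field K]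
  {H : WeilTheoryData.{u, v, w} C K} [hH : IsWeilProj H] {X Y Z W : 𝒱.Obj}

include hC hH

lemma act_cl_zero (Γ : C.A (X.prod Y)) {z : C.A X} (hz : H.cl z = 0) : H.cl (C.act Γ z) = 0 := by
  rw [cl_act H, hz, TheoryData.act_map_zero]

lemma cl_act_zero {Γ : C.A (X.prod Y)} (h : H.cl Γ = 0) (z : C.A X) : H.cl (C.act Γ z) = 0 := by
  rw [cl_act H, h, TheoryData.act_zero]

lemma comp_cl_left {Γ : C.A (X.prod Y)} (h : H.cl Γ = 0) (Δ : C.A (Y.prod Z)) :
    H.cl (C.comp Γ Δ) = 0 := by
  rw [cl_comp, h]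
  exact zero_comp H.toTheoryData _

lemma comp_cl_right (Γ : C.A (X.prod Y)) {Δ : C.A (Y.prod Z)} (h : H.cl Δ = 0) :
    H.cl (C.comp Γ Δ) = 0 := by
  rw [cl_comp, h]
  exact comp_zero H.toTheoryData _

/-- A class in `CH^0` which is homologically trivial vanishes. -/
lemma eq_zero_of_gr_zero {x : C.A X} (hx : x ∈ C.gr X 0) (h : H.cl x = 0) :
    x = 0 := by
  obtain ⟨q, rfl⟩ := hC.gr_zero X x hx
  by_cases hq : q = 0
  · rw [hq, zero_smul]
  exfalso
  have h1 : H.cl (1 : C.A X) = 0 := by
    have h2 : (1 : C.A X) = (q⁻¹ • (1 : C.A X)) * (q • (1 : C.A X)) := by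
      rw [smul_mul_smul_comm, inv_mul_cancel₀ hq, one_mul, one_smul]
    rw [h2, map_mul, h, mul_zero]
  rw [map_one] at h1
  exact hH.one_ne_zero X h1

/-- The finitely many varieties `D s`, of dimension `n`, embed into one variety `W`: with
correspondences `ι s` from `D s` to `W` and `ρ s` from `W` to `D s` such that `ρ s ∘ ι s` is the
identity and `ρ t ∘ ι s = 0` (`s ≠ t`) on homologically trivial zero-cycles of `D s`. -/
theorem exists_embedding {r n : ℕ} (D : Fin r → 𝒱.Obj) (hD : ∀ s, (D s).dim = n)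
    (s₀ : Fin r) (T : Finset (Fin r)) :
    ∃ (W : 𝒱.Obj) (e : ℕ) (ι : ∀ s, C.A ((D s).prod W)) (ρ : ∀ s, C.A (W.prod (D s))),
      W.dim = n + e ∧ (∀ s, ι s ∈ C.gr _ ((D s).dim + (e : ℤ))) ∧
      (∀ s, ρ s ∈ C.gr _ (W.dim + (-e : ℤ))) ∧
      (∀ s ∈ T, ∀ z ∈ C.gr (D s) (D s).dim, H.cl z = 0 → C.act (ρ s) (C.act (ι s) z) = z) ∧
      (∀ s ∈ T, ∀ t ∈ T, s ≠ t → ∀ z ∈ C.gr (D s) (D s).dim, H.cl z = 0 →
        C.act (ρ t) (C.act (ι s) z) = 0) := by
  induction T using Finset.induction with
  | empty =>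
    refine ⟨D s₀, 0, fun _ => 0, fun _ => 0, by rw [hD, add_zero], fun _ => Submodule.zero_mem _,
      fun _ => Submodule.zero_mem _, fun s hs => absurd hs (Finset.notMem_empty s),
      fun s hs => absurd hs (Finset.notMem_empty s)⟩
  | insert a T ha ih =>
    obtain ⟨W, e, ι, ρ, hW, hι, hρ, h1, h2⟩ := ih
    obtain ⟨o, ho, hdo⟩ := exists_hasDegree_one (C := C) H (D a)
    obtain ⟨p, hp, hdp⟩ := exists_hasDegree_one (C := C) H W
    -- `x ↦ x × o`
    obtain ⟨A, hA, hA1, -⟩ := ((Realised.pull (H := H) (fst W (D a))).comp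
      (Realised.mul (H := H) (C.pull_mem (snd W (D a)) ho)))
    -- `z ↦ p × z`
    obtain ⟨B, hB, hB1, -⟩ := ((Realised.pull (H := H) (snd W (D a))).comp
      (Realised.mul (H := H) (C.pull_mem (fst W (D a)) hp)))
    obtain ⟨P, hP, hP1, -⟩ := Realised.push (H := H) (fst W (D a))
    obtain ⟨Q, hQ, hQ1, -⟩ := Realised.push (H := H) (snd W (D a))
    replace hA1 : ∀ x, C.act A x = C.pull (snd W (D a)) o * C.pull (fst W (D a)) x := hA1
    replace hB1 : ∀ x, C.act B x = C.pull (fst W (D a)) p * C.pull (snd W (D a)) x := hB1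
    have hdim : ((W.prod (D a)).dim : ℤ) = W.dim + (D a).dim := by rw [dim_prod]; push_cast; rfl
    have hn : ∀ s, ((D s).dim : ℤ) = n := fun s => by rw [hD]
    -- push-forwards of external products
    have hpf : ∀ (x : C.A W) (y : C.A (D a)) (q : ℚ), HasDegree C y q →
        C.push (fst W (D a)) (C.pull (snd W (D a)) y * C.pull (fst W (D a)) x) = q • x := by
      intro x y q hy
      rw [C.proj_right, (hy W).2, smul_mul_assoc, one_mul]
    have hps : ∀ (x : C.A W) (y : C.A (D a)) (q : ℚ), HasDegree C x q →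
        C.push (snd W (D a)) (C.pull (fst W (D a)) x * C.pull (snd W (D a)) y) = q • y := by
      intro x y q hx
      rw [C.proj_right, (hx (D a)).1, smul_mul_assoc, one_mul]
    refine ⟨W.prod (D a), e + n, Function.update (fun s => C.comp (ι s) A) a B,
      Function.update (fun s => C.comp P (ρ s)) a Q, ?_, ?_, ?_, ?_, ?_⟩
    · rw [dim_prod, hW, hD]; ring
    · intro s
      by_cases hs : s = a
      · subst hs
        rw [Function.update_self]
        have e1 : ((D s).dim : ℤ) + ((e + n : ℕ) : ℤ) = (D s).dim + (0 + W.dim) := by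
          rw [hW]; push_cast; ring
        rw [e1]
        exact hB
      · rw [Function.update_of_ne hs]
        have h3 := comp_mem C (hι s) hA
        have e1 : ((D s).dim : ℤ) + ((e + n : ℕ) : ℤ) = (D s).dim + (e + (0 + (D a).dim)) := by
          rw [hD a]; push_cast; ring
        rw [e1]
        exact h3
    · intro s
      by_cases hs : s = a
      · subst hs
        rw [Function.update_self]
        have e1 : ((W.prod (D s)).dim : ℤ) + (-((e + n : ℕ) : ℤ)) =
            (W.prod (D s)).dim + ((D s).dim - (W.prod (D s)).dim) := by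
          rw [hdim, hW, hD]; push_cast; ring
        rw [e1]
        exact hQ
      · rw [Function.update_of_ne hs]
        have h3 := comp_mem C hP (hρ s)
        have e1 : ((W.prod (D a)).dim : ℤ) + (-((e + n : ℕ) : ℤ)) =
            (W.prod (D a)).dim + ((W.dim - (W.prod (D a)).dim) + -e) := by
          rw [hdim, hD]; push_cast; ring
        rw [e1]
        exact h3
    · intro s hs z hz hz0
      rcases Finset.mem_insert.1 hs with rfl | hs'
      · rw [Function.update_self, Function.update_self, hB1, hQ1, hps p z 1 hdp, one_smul]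
      · have hne : s ≠ a := fun h => ha (h ▸ hs')
        rw [Function.update_of_ne hne, Function.update_of_ne hne, C.act_comp, C.act_comp, hA1, hP1,
          hpf _ o 1 hdo, one_smul]
        exact h1 s hs' z hz hz0
    · intro s hs t ht hst z hz hz0
      rcases Finset.mem_insert.1 hs with rfl | hs'
      · have hne : t ≠ s := Ne.symm hst
        rw [Function.update_self, Function.update_of_ne hne, C.act_comp, hB1, hP1]
        have h3 : C.pull (fst W (D s)) p * C.pull (snd W (D s)) z =
          C.pull (snd W (D s)) z * C.pull (fst W (D s)) p := ch_comm C _ _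
        rw [h3, hpf p z 0 (hasDegree_zero_of_cl H hz hz0), zero_smul, TheoryData.act_map_zero]
      · have hne : s ≠ a := fun h => ha (h ▸ hs')
        rcases Finset.mem_insert.1 ht with rfl | ht'
        · rw [Function.update_self, Function.update_of_ne hne, C.act_comp, hA1, hQ1]
          have h3 : C.pull (snd W (D t)) o * C.pull (fst W (D t)) (C.act (ι s) z) =
            C.pull (fst W (D t)) (C.act (ι s) z) * C.pull (snd W (D t)) o := ch_comm C _ _
          have h4 : C.act (ι s) z ∈ C.gr W W.dim := by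
            have := act_mem' C (hι s) hz
            have e1 : (W.dim : ℤ) = (D s).dim + e := by rw [hW, hD]; push_cast; rfl
            rw [e1]
            exact this
          rw [h3, hps _ o 0 (hasDegree_zero_of_cl H h4 (act_cl_zero (H := H) _ hz0)), zero_smul]
        · have hne' : t ≠ a := fun h => ha (h ▸ ht')
          rw [Function.update_of_ne hne, Function.update_of_ne hne', C.act_comp, C.act_comp, hA1,
            hP1, hpf _ o 1 hdo, one_smul]
          exact h2 s hs' t ht' hst z hz hz0

/-- A homologically trivial self-correspondence `c` of `W` which factors through varieties of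
dimension `n` acts locally nilpotently on the homologically trivial classes in `CH^n(W)`, if
homologically trivial self-correspondences act locally nilpotently on zero-cycles. -/
theorem nilpotent_on_gr (hZ : ∀ X : 𝒱.Obj, HomTrivialNilpotentOnZeroCycles H X) {n : ℕ}
    {c : C.A (W.prod W)} (hc : c ∈ C.gr (W.prod W) W.dim) (h0 : H.cl c = 0)
    (hf : FactorsThroughDim C n c) {y : C.A W} (hy : y ∈ C.gr W n) (hy0 : H.cl y = 0) :
    ∃ m : ℕ, (C.act c)^[m] y = 0 := by
  obtain ⟨r, D, f, g, hfg, hcs⟩ := hf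
  rcases Nat.eq_zero_or_pos r with rfl | hr
  · refine ⟨1, ?_⟩
    rw [Function.iterate_one, hcs, Finset.univ_eq_empty, Finset.sum_empty, TheoryData.act_zero]
  obtain ⟨W', e, ι, ρ, hW', hι, hρ, h1, h2⟩ := exists_embedding (H := H) D (fun s => (hfg s).1) ⟨0, hr⟩
    Finset.univ
  have hdegD : ∀ s, ((D s).dim : ℤ) = n := fun s => by rw [(hfg s).1]
  have hf' : ∀ s, f s ∈ C.gr (W.prod (D s)) (W.dim + (0 : ℤ)) := fun s => by
    rw [add_zero]; exact (hfg s).2.1
  have hg' : ∀ s, g s ∈ C.gr ((D s).prod W) ((D s).dim + (0 : ℤ)) := fun s => by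
    rw [add_zero]; exact (hfg s).2.2
  have hc' : c ∈ C.gr (W.prod W) (W.dim + (0 : ℤ)) := by rw [add_zero]; exact hc
  -- the embedded correspondence
  let E : C.A (W'.prod W') := ∑ t, ∑ s, C.comp (ρ t) (C.comp (g t) (C.comp c (C.comp (f s) (ι s))))
  have hE : E ∈ C.gr (W'.prod W') W'.dim := by
    apply Submodule.sum_mem
    intro t _
    apply Submodule.sum_mem
    intro s _
    have := comp_mem C (hρ t) (comp_mem C (hg' t) (comp_mem C hc' (comp_mem C (hf' s) (hι s))))
    have e1 : (W'.dim : ℤ) + (-(e : ℤ) + (0 + (0 + (0 + e)))) = W'.dim := by ring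
    rwa [e1] at this
  have hE0 : H.cl E = 0 := by
    rw [map_sum]
    apply Finset.sum_eq_zero
    intro t _
    rw [map_sum]
    apply Finset.sum_eq_zero
    intro s _
    exact comp_cl_right _ (comp_cl_right _ (comp_cl_left h0 _))
  let J : C.A W → C.A W' := fun y => ∑ s, C.act (ι s) (C.act (f s) y)
  have hfy : ∀ (y : C.A W), y ∈ C.gr W n → ∀ s, C.act (f s) y ∈ C.gr (D s) (D s).dim := by
    intro y hy s
    have := act_mem' C (hf' s) hy
    rw [add_zero] at this
    rw [hdegD s]
    exact this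
  have hρJ : ∀ (y : C.A W), y ∈ C.gr W n → H.cl y = 0 → ∀ t, C.act (ρ t) (J y) = C.act (f t) y := by
    intro y hy hy0 t
    change C.act (ρ t) (∑ s, C.act (ι s) (C.act (f s) y)) = _
    rw [act_map_sum, Finset.sum_eq_single t]
    · exact h1 t (Finset.mem_univ t) _ (hfy y hy t) (act_cl_zero _ hy0)
    · intro s _ hst
      exact h2 s (Finset.mem_univ s) t (Finset.mem_univ t) hst _ (hfy y hy s) (act_cl_zero _ hy0)
    · intro h
      exact absurd (Finset.mem_univ t) h
  have hstep : ∀ (y : C.A W), y ∈ C.gr W n → H.cl y = 0 →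
      C.act E (J y) = J (C.act c (C.act c y)) := by
    intro y hy hy0
    have hcy : C.act c y = ∑ t, C.act (g t) (C.act (f t) y) := by
      rw [hcs, act_sum]
      exact Finset.sum_congr rfl fun t _ => C.act_comp _ _ _
    change C.act (∑ t, ∑ s, _) (J y) = ∑ s, _
    rw [act_sum]
    have e1 : ∀ t, C.act (∑ s, C.comp (ρ t) (C.comp (g t) (C.comp c (C.comp (f s) (ι s))))) (J y) =
        ∑ s, C.act (ι s) (C.act (f s) (C.act c (C.act (g t) (C.act (f t) y)))) := by
      intro t
      rw [act_sum]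
      apply Finset.sum_congr rfl
      intro s _
      rw [C.act_comp, C.act_comp, C.act_comp, C.act_comp, hρJ y hy hy0]
    rw [Finset.sum_congr rfl fun t _ => e1 t, Finset.sum_comm]
    apply Finset.sum_congr rfl
    intro s _
    rw [hcy, act_map_sum, act_map_sum, act_map_sum]
  have hmemc : ∀ (y : C.A W), y ∈ C.gr W n → C.act c y ∈ C.gr W n := fun y hy => act_mem0 C hc hy
  have hiter : ∀ (m : ℕ) (y : C.A W), y ∈ C.gr W n → H.cl y = 0 →
      (C.act E)^[m] (J y) = J ((C.act c)^[2 * m] y) := by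
    intro m
    induction m with
    | zero => intro y _ _; rfl
    | succ m ih =>
      intro y hy hy0
      rw [Function.iterate_succ_apply, hstep y hy hy0, ih _ (hmemc _ (hmemc _ hy))
        (act_cl_zero _ (act_cl_zero _ hy0))]
      have e1 : 2 * (m + 1) = 2 * m + 1 + 1 := by ring
      rw [e1, Function.iterate_succ_apply, Function.iterate_succ_apply]
  have hJy : J y ∈ C.gr W' W'.dim := by
    apply Submodule.sum_mem
    intro s _
    have := act_mem' C (hι s) (hfy y hy s)
    have e1 : (W'.dim : ℤ) = (D s).dim + e := by rw [hdegD, hW']; push_cast; rfl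
    rw [e1]
    exact this
  obtain ⟨m, hm⟩ := hZ W' E hE hE0 (J y) hJy
  rw [hiter m y hy hy0] at hm
  have hmem : ∀ m : ℕ, (C.act c)^[m] y ∈ C.gr W n ∧ H.cl ((C.act c)^[m] y) = 0 := by
    intro m
    induction m with
    | zero => exact ⟨hy, hy0⟩
    | succ m ih =>
      rw [Function.iterate_succ_apply']
      exact ⟨hmemc _ ih.1, act_cl_zero _ ih.2⟩
  refine ⟨2 * m + 1, ?_⟩
  rw [Function.iterate_succ_apply', hcs, act_sum]
  apply Finset.sum_eq_zero
  intro s _
  rw [← hcs, C.act_comp, ← hρJ _ (hmem (2 * m)).1 (hmem (2 * m)).2 s, hm, TheoryData.act_map_zero,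
    TheoryData.act_map_zero]

/-- The same on all of `CH^n(W)`. -/
theorem nilpotent_on_gr' (hZ : ∀ X : 𝒱.Obj, HomTrivialNilpotentOnZeroCycles H X) {n : ℕ}
    {c : C.A (W.prod W)} (hc : c ∈ C.gr (W.prod W) W.dim) (h0 : H.cl c = 0)
    (hf : FactorsThroughDim C n c) {y : C.A W} (hy : y ∈ C.gr W n) :
    ∃ m : ℕ, (C.act c)^[m] y = 0 := by
  obtain ⟨m, hm⟩ := nilpotent_on_gr hZ hc h0 hf (act_mem0 C hc hy) (cl_act_zero h0 y)
  exact ⟨m + 1, by rw [Function.iterate_succ_apply]; exact hm⟩

omit hH in
lemma corPow_succ' (γ : C.A (W.prod W)) (n : ℕ) :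
    corPow C γ (n + 1) = C.comp γ (corPow C γ n) := by
  induction n with
  | zero =>
    change C.comp (dg C W) γ = C.comp γ (dg C W)
    rw [dg_comp, comp_dg]
  | succ n ih =>
    change C.comp (corPow C γ (n + 1)) γ = C.comp γ (C.comp (corPow C γ n) γ)
    rw [ih, comp_assoc]

omit hH in
lemma corPow_mem {γ : C.A (W.prod W)} (hγ : γ ∈ C.gr (W.prod W) W.dim) (n : ℕ) :
    corPow C γ n ∈ C.gr (W.prod W) W.dim := by
  induction n with
  | zero => exact dg_mem C W
  | succ n ih => exact comp_mem0 C ih hγ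

lemma corPow_cl {γ : C.A (W.prod W)} (h0 : H.cl γ = 0) (n : ℕ) :
    H.cl (corPow C γ (n + 1)) = 0 := comp_cl_right (H := H) _ h0

omit hH in
lemma corPow_add (γ : C.A (W.prod W)) (m n : ℕ) :
    corPow C γ (m + n) = C.comp (corPow C γ m) (corPow C γ n) := by
  induction n with
  | zero => exact (comp_dg C _).symm
  | succ n ih =>
    change C.comp (corPow C γ (m + n)) γ = C.comp _ (C.comp (corPow C γ n) γ)
    rw [ih, comp_assoc]

omit hH in
lemma corPow_mul (γ : C.A (W.prod W)) (m n : ℕ) :
    corPow C (corPow C γ m) n = corPow C γ (m * n) := by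
  induction n with
  | zero => rfl
  | succ n ih =>
    change C.comp (corPow C (corPow C γ m) n) (corPow C γ m) = _
    rw [Nat.mul_succ, corPow_add γ (m * n) m, ← ih]

omit hH in
lemma act_iterate_zero (γ : C.A (W.prod W)) (l : ℕ) : (C.act γ)^[l] 0 = 0 := by
  induction l with
  | zero => rfl
  | succ l ihl => rw [Function.iterate_succ_apply', ihl, TheoryData.act_map_zero]

omit hH in
/-- Finite sums of correspondences that factor through dimension `n`, composed with
correspondences of degree zero. -/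
lemma FactorsThroughDim.sum_comp_left {r n : ℕ} {D : Fin r → 𝒱.Obj}
    {f : ∀ s, C.A (X.prod (D s))} {κ : ∀ s, C.A ((D s).prod Y)} (hf : ∀ s, C.Deg X.dim (f s))
    (hκ : ∀ s, FactorsThroughDim C n (κ s)) :
    FactorsThroughDim C n (∑ s, C.comp (f s) (κ s)) := by
  choose ρ D' f' g' hfg' hκ' using hκ
  let e : (Σ s : Fin r, Fin (ρ s)) ≃ Fin (∑ s, ρ s) := finSigmaFinEquiv
  have hD : ∀ (s : Fin r) (t : Fin (ρ s)), (D' s t).dim = n := fun s t => (hfg' s t).1
  refine ⟨∑ s, ρ s, fun i => D' (e.symm i).1 (e.symm i).2,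
    fun i => C.comp (f (e.symm i).1) (f' (e.symm i).1 (e.symm i).2),
    fun i => g' (e.symm i).1 (e.symm i).2, fun i => ⟨hD _ _, ?_, (hfg' _ _).2.2⟩, ?_⟩
  · have h1 : f (e.symm i).1 ∈ C.gr _ (X.dim + (0 : ℤ)) := by rw [add_zero]; exact hf _
    have h2 : f' (e.symm i).1 (e.symm i).2 ∈ C.gr _ ((D (e.symm i).1).dim + (0 : ℤ)) := by
      rw [add_zero]; exact (hfg' _ _).2.1
    have := comp_mem C h1 h2
    rwa [add_zero, add_zero] at this
  · let G : (Σ s : Fin r, Fin (ρ s)) → C.A (X.prod Y) := fun x =>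
      C.comp (C.comp (f x.1) (f' x.1 x.2)) (g' x.1 x.2)
    have h1 : ∑ s, C.comp (f s) (κ s) = ∑ x, G x := by
      rw [Fintype.sum_sigma]
      apply Finset.sum_congr rfl
      intro s _
      rw [hκ' s, comp_sum]
      exact Finset.sum_congr rfl fun t _ => (comp_assoc C _ _ _).symm
    rw [h1]
    exact (Equiv.sum_comp e.symm G).symm

/-- If homologically trivial self-correspondences act locally nilpotently on zero-cycles, then
homologically trivial self-correspondences which factor through varieties of dimension `n` are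
nilpotent. -/
theorem isNilpotent_of_factors (hG : HasGenericPoints C)
    (hZ : ∀ X : 𝒱.Obj, HomTrivialNilpotentOnZeroCycles H X) (n : ℕ) :
    ∀ c : C.A (W.prod W), c ∈ C.gr (W.prod W) W.dim → H.cl c = 0 →
      FactorsThroughDim C n c → ∃ m : ℕ, corPow C c m = 0 := by
  induction n with
  | zero =>
    intro c hc h0 hf
    obtain ⟨r, D, f, g, hfg, hcs⟩ := hf
    refine ⟨2, ?_⟩
    have hg' : ∀ s, g s ∈ C.gr ((D s).prod W) ((D s).dim + (0 : ℤ)) := fun s => by
      rw [add_zero]; exact (hfg s).2.2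
    have hc' : c ∈ C.gr (W.prod W) (W.dim + (0 : ℤ)) := by
      rw [add_zero]; exact hc
    have h1 : ∀ s, C.comp (g s) c = 0 := by
      intro s
      apply eq_zero_of_gr_zero (H := H)
      · have := comp_mem C (hg' s) hc'
        rw [(hfg s).1] at this
        simpa using this
      · exact comp_cl_right _ h0
    have h2 : corPow C c 2 = C.comp c c := by
      change C.comp (C.comp (dg C W) c) c = _
      rw [dg_comp]
    rw [h2]
    nth_rewrite 1 [hcs]
    rw [sum_comp]
    apply Finset.sum_eq_zero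
    intro s _
    rw [comp_assoc, h1, comp_zero]
  | succ n ih =>
    intro c hc h0 hf
    have hf0 := hf
    obtain ⟨r, D, f, g, hfg, hcs⟩ := hf
    let κ : ∀ (t : Fin r) (m : ℕ), C.A ((D t).prod W) := fun t m => C.comp (g t) (corPow C c m)
    have hg' : ∀ s, g s ∈ C.gr ((D s).prod W) ((D s).dim + (0 : ℤ)) := fun s => by
      rw [add_zero]; exact (hfg s).2.2
    have hκ : ∀ t m, κ t m ∈ C.gr ((D t).prod W) (D t).dim := by
      intro t m
      have h1 : corPow C c m ∈ C.gr (W.prod W) (W.dim + (0 : ℤ)) := by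
        rw [add_zero]; exact corPow_mem hc m
      have := comp_mem C (hg' t) h1
      simpa using this
    have hgen : ∀ t, ∃ m : ℕ, ∀ m' ≥ m, FactorsThroughDim C n (κ t m') := by
      intro t
      obtain ⟨η, hη, hη'⟩ := hG (D t) (by rw [(hfg t).1]; omega) (fun _ => W) (κ t) (hκ t)
      have hgη : C.act (g t) η ∈ C.gr W (n + 1 : ℕ) := by
        have := act_mem' C (hg' t) hη
        rw [(hfg t).1, add_zero] at this
        exact this
      obtain ⟨m, hm⟩ := nilpotent_on_gr' hZ hc h0 hf0 hgη
      refine ⟨m, fun m' hm' => ?_⟩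
      have h2 : (D t).dim - 1 = n := by rw [(hfg t).1]; rfl
      rw [← h2]
      apply hη' m'
      change C.act (C.comp _ _) η = 0
      rw [C.act_comp, corPow_iterate inferInstance, ← Nat.sub_add_cancel hm',
        Function.iterate_add_apply, hm]
      exact act_iterate_zero _ _
    choose M hM using hgen
    let N := ∑ t, M t
    have hN : ∀ t, M t ≤ N := fun t => Finset.single_le_sum (fun _ _ => Nat.zero_le _)
      (Finset.mem_univ t)
    have h1 : corPow C c (N + 1) = ∑ t, C.comp (f t) (κ t N) := by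
      rw [corPow_succ']
      nth_rewrite 1 [hcs]
      rw [sum_comp]
      exact Finset.sum_congr rfl fun t _ => comp_assoc C _ _ _
    have hfac : FactorsThroughDim C n (corPow C c (N + 1)) := by
      rw [h1]
      exact FactorsThroughDim.sum_comp_left (fun s => (hfg s).2.1)
        fun s => hM s N (hN s)
    obtain ⟨l, hl⟩ := ih (corPow C c (N + 1)) (corPow_mem hc _) (corPow_cl h0 N) hfac
    exact ⟨(N + 1) * l, by rw [← corPow_mul]; exact hl⟩

omit hH in
/-- Every correspondence of degree zero factors through its source. -/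
lemma factorsThroughDim_self {γ : C.A (X.prod Y)} (hγ : C.Deg X.dim γ) :
    FactorsThroughDim C X.dim γ :=
  ⟨1, fun _ => X, fun _ => dg C X, fun _ => γ, fun _ => ⟨rfl, dg_mem C X, hγ⟩, by
    rw [Finset.univ_unique, Finset.sum_singleton, dg_comp]⟩

/-- **Nilpotence on zero-cycles implies nilpotence.** -/
theorem homTrivialNilpotent_of_zeroCycles (hG : HasGenericPoints C)
    (hZ : ∀ X : 𝒱.Obj, HomTrivialNilpotentOnZeroCycles H X) (X : 𝒱.Obj) :
    HomTrivialNilpotent H X := fun γ hγ h0 =>
  isNilpotent_of_factors hG hZ X.dim γ hγ h0 (factorsThroughDim_self hγ)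

end Pool.Agent.TH116.ZC
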