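import Pool.Agent.TH116.ZC.Murre

/-!
# The conjectures (C) and (D) of Murre near the middle codimension
-/

open CategoryTheory AlgebraicGeometry

universe u v w

namespace Pool.Agent.TH116.ZC

open Pool.Agent.H914 Pool.Agent.H914.VarClass Pool.Agent.H914.VarClass.Obj Pool.Agent.W492.BB
  Pool.Agent.W550.Corr Pool.Agent.TH133

set_option linter.unusedSectionVars false

variable {k : Type u} [Field k] {𝒱 : VarClass k} {C : TheoryData.{u, v, 0} 𝒱 ℚ}
  [hC : IsChowProj C] {K : Type w} [Field K]
  {H : WeilTheoryData.{u, v, w} C K} [hH : IsWeilProj H] {X Y Z W : 𝒱.Obj}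

include hC hH

/-- The classes in a stable family have no components of weight `≥ 2 i + c` if this holds for
varieties of dimension `2 i + c` and for the weight `2 i + c`. -/
theorem act_zero_of_middle (hE : HasGenericCurves C) {S : ∀ X : 𝒱.Obj, ℕ → C.A X → Prop}
    (hS : IsStableFamily C S) {c : ℤ}
    (h0 : ∀ (X : 𝒱.Obj) (π : ℕ → C.A (X.prod X)), IsCK H X π →
      ∀ i j : ℕ, (j : ℤ) = 2 * i + c → X.dim = j → ∀ x, S X i x → C.act (π j) x = 0) (m : ℕ) :
    ∀ (X : 𝒱.Obj) (π : ℕ → C.A (X.prod X)), IsCK H X π → ∀ i j : ℕ, (j : ℤ) = 2 * i + c + m →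
      ∀ x, S X i x → C.act (π j) x = 0 := by
  induction m with
  | zero =>
    have h1 : ∀ (δ : ℕ) (X : 𝒱.Obj) (π : ℕ → C.A (X.prod X)), IsCK H X π →
        ∀ i j : ℕ, (j : ℤ) = 2 * i + c → X.dim = j + δ → ∀ x, S X i x →
          C.act (π j) x = 0 := by
      intro δ
      induction δ with
      | zero => exact fun X π hπ i j hj hd x hx => h0 X π hπ i j hj (by omega) x hx
      | succ δ ih =>
        intro X π hπ i j hj hd x hx
        obtain ⟨T, hT⟩ := exists_curve hE X
        obtain ⟨τ, hτ, -⟩ := exists_CK_curve (C := C) H T hT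
        obtain ⟨w, hw, hdw⟩ := exists_hasDegree_one (C := C) H T
        have h2 := ih (X.prod T) (prodCK C π τ) (hπ.prod hτ) (i + 1) (j + 2)
          (by push_cast; omega) (by rw [dim_prod, hT]; omega) (C.ext (C.act (π j) x) w)
          (hS.ext hT (by rw [hT] at hw; exact_mod_cast hw) (hS.act (hπ.deg _) hx))
        rw [act_prodCK_ext (H := H) (j := j) (act_component hπ _ _) (by omega)] at h2
        have e1 : j + 2 - j = 2 * T.dim := by rw [hT]; omega
        rw [e1] at h2
        exact eq_zero_of_ext (hasDegree_act_top hτ hw hdw) h2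
    have h2 : ∀ (δ : ℕ) (X : 𝒱.Obj) (π : ℕ → C.A (X.prod X)), IsCK H X π →
        ∀ i j : ℕ, (j : ℤ) = 2 * i + c → X.dim + δ = j → ∀ x, S X i x →
          C.act (π j) x = 0 := by
      intro δ
      induction δ with
      | zero => exact fun X π hπ i j hj hd x hx => h0 X π hπ i j hj (by omega) x hx
      | succ δ ih =>
        intro X π hπ i j hj hd x hx
        obtain ⟨T, hT⟩ := exists_curve hE X
        obtain ⟨τ, hτ, -⟩ := exists_CK_curve (C := C) H T hT
        obtain ⟨w, hw, hdw⟩ := exists_hasDegree_one (C := C) H T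
        have h2 := ih (X.prod T) (prodCK C π τ) (hπ.prod hτ) (i + 0) j
          (by push_cast; omega) (by rw [dim_prod, hT]; omega) (C.ext (C.act (π j) x) 1)
          (hS.ext hT (by exact_mod_cast C.one_mem T) (hS.act (hπ.deg _) hx))
        rw [act_prodCK_ext (H := H) (j := j) (act_component hπ _ _) le_rfl, Nat.sub_self,
          act_bot_one hτ] at h2
        exact eq_zero_of_ext_one hdw h2
    intro X π hπ i j hij x hx
    rcases le_total j X.dim with h | h
    · exact h1 (X.dim - j) X π hπ i j (by omega) (by omega) x hx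
    · exact h2 (j - X.dim) X π hπ i j (by omega) (by omega) x hx
  | succ m ih =>
    intro X π hπ i j hij x hx
    obtain ⟨T, t, hT, ht, hd, hE'⟩ := hE X fun _ => C.act (π j) x
    refine hE' 0 ?_
    obtain ⟨τ, hτ, hτ1⟩ := exists_CK_curve (C := C) H T hT
    have h2 := ih (X.prod T) (prodCK C π τ) (hπ.prod hτ) (i + 1) (j + 1) (by push_cast at *; omega)
      (C.ext (C.act (π j) x) t) (hS.ext hT (by exact_mod_cast ht) (hS.act (hπ.deg _) hx))
    rw [act_prodCK_ext (H := H) (j := j) (act_component hπ _ _) (by omega), Nat.add_sub_cancel_left,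
      hτ1 t ht hd, if_pos rfl] at h2
    exact h2

/-- **(D) has to be checked only in the middle codimension.** -/
theorem murreD_iff_middle (hE : HasGenericCurves C) :
    (∀ X : 𝒱.Obj, MurreD H X) ↔ ∀ (X : 𝒱.Obj) (i : ℕ), X.dim = 2 * i →
      ∀ π, IsCK H X π → ∀ x : C.A X, x ∈ ckFil C π i 1 ↔ C.Deg i x ∧ H.cl x = 0 := by
  constructor
  · exact fun h X i _ π hπ x => h X π hπ i x
  · intro h X
    apply murreD_of_high
    intro π hπ i j hij x hx hx0
    refine act_zero_of_middle hE (isStableFamily_hom (H := H)) (c := 0) ?_ (j - 2 * i) X π hπ i j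
      (by omega) x ⟨hx, hx0⟩
    intro X π hπ i j hj hd x hx
    have h1 := (h X i (by omega) π hπ x).2 hx
    rw [hπ.mem_ckFil] at h1
    exact h1.2 j (by omega)

/-- Independence of the step `F^0 CH^l(X)` implies that it is everything. -/
theorem act_zero_of_independent {l : ℕ}
    (hX : ∀ π π', IsCK H X π → IsCK H X π' → ckFil C π l 0 = ckFil C π' l 0)
    {π : ℕ → C.A (X.prod X)} (hπ : IsCK H X π) {j : ℕ} {x : C.A X} (hx : x ∈ C.gr X l)
    (hj : 2 * l < j) : C.act (π j) x = 0 := by
  by_cases hjd : 2 * X.dim < j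
  · rw [hπ.out j hjd, TheoryData.act_zero]
  obtain ⟨u0, hu0, v0, hv0, huv⟩ := exists_dual_pair (C := C) (H := H) X (l := l) (by omega)
  set α := C.act (π j) x with hα
  have hαm : α ∈ C.gr X l := act_mem0 C (hπ.deg j) hx
  have hαj : C.act (π j) α = α := by rw [hα, ← C.act_comp, hπ.idem]
  let P : ℕ → Cor C X := π
  have hP : IsCK H X P := hπ
  have hPm : ∀ i, P i ∈ cor0 C X := hπ.deg
  have hPo : ∀ i j, i ≠ j → P i * P j = 0 := fun i j hij => by rw [hP.mul_eq, if_neg hij]
  have hPi : ∀ i, P i * P i = P i := fun i => by rw [hP.mul_eq, if_pos rfl]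
  let E : Cor C X := C.ext v0 α
  have hE : E ∈ cor0 C X := by
    have := ext_mem (C := C) (H := H) hv0 hαm
    rwa [sub_add_cancel] at this
  let n : Cor C X := P j * E * P (2 * l)
  have hn : n ∈ cor0 C X := (cor0 C X).mul_mem ((cor0 C X).mul_mem (hPm _) hE) (hPm _)
  have hnn : n * n = 0 := by
    have : n * n = P j * E * (P (2 * l) * P j) * E * P (2 * l) := by
      simp only [n, mul_assoc]
    rw [this, hPo _ _ (by omega), mul_zero, zero_mul, zero_mul]
  have hnact : ∀ a : H.A X, actH C X H n a = 0 := by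
    have h0 : actH C X H n = 0 := by
      apply ext_gr H
      intro m a ha
      rw [LinearMap.zero_apply]
      simp only [n]
      rw [map_mul, map_mul, Module.End.mul_apply, Module.End.mul_apply, hP.actH_eq' _ _ ha]
      split_ifs with hm
      · rw [hP.actH_eq' _ _ (actH_mem0 hE ha), if_neg (by omega)]
      · rw [map_zero, map_zero]
    intro a
    rw [h0, LinearMap.zero_apply]
  have huv' : (1 + n) * (1 - n) = 1 := by
    rw [mul_sub, mul_one, add_mul, one_mul, hnn]; abel
  have hvu' : (1 - n) * (1 + n) = 1 := by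
    rw [mul_add, mul_one, sub_mul, one_mul, hnn]; abel
  have hconj := hP.conj (u := 1 + n) (v := 1 - n) ((cor0 C X).add_mem (cor0 C X).one_mem hn)
    ((cor0 C X).sub_mem (cor0 C X).one_mem hn) huv' hvu'
    (fun a => by rw [map_add, map_one, LinearMap.add_apply, hnact, add_zero]; rfl)
  have hF := hX _ _ hconj hπ
  set w := C.act (π (2 * l)) u0 with hw
  have hwm : w ∈ C.gr X l := act_mem0 C (hπ.deg _) hu0
  have hact : ∀ (a b : Cor C X) (z : C.A X), actC C X (a * b) z = actC C X a (actC C X b z) :=
    fun a b z => by rw [map_mul]; rfl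
  have hPw : ∀ i, actC C X (P i) w = if i = 2 * l then w else 0 := by
    intro i
    have h1 : w = actC C X (P (2 * l)) u0 := rfl
    split_ifs with hi
    · rw [h1, ← hact, hi, hPi]
    · rw [h1, ← hact, hPo _ _ hi, map_zero]
      rfl
  have hnw : actC C X n w = α := by
    simp only [n]
    rw [hact, hact, hPw, if_pos rfl]
    have h1 : actC C X E w = α := by
      change C.act (C.ext v0 α) w = α
      rw [act_ext (H := H)]
      have h2 : C.push (snd X X) (C.pull (fst X X) (v0 * w)) = 1 := by
        rw [← huv]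
        apply deg_eq_of_cl (H := H)
        · have := C.mul_mem hv0 hwm
          rwa [sub_add_cancel] at this
        · have := C.mul_mem hv0 hu0
          rwa [sub_add_cancel] at this
        · rw [map_mul, map_mul, hw, cl_act H]
          congr 1
          have h3 := H.cl_mem hu0
          exact hπ.act_self (2 * l) _ (by exact_mod_cast h3)
      rw [h2, one_mul]
    rw [h1]
    exact hαj
  have hy : w + α ∈ ckFil C (fun i => ((1 + n) * P i * (1 - n) : Cor C X)) l 0 := by
    rw [hconj.mem_ckFil]
    refine ⟨Submodule.add_mem _ hwm hαm, fun i hi => ?_⟩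
    have h1 : w + α = actC C X (1 + n) w := by
      rw [map_add, map_one, LinearMap.add_apply, hnw]
      rfl
    have h2 : actC C X ((1 + n) * P i * (1 - n)) (w + α) = 0 := by
      rw [h1, ← hact]
      have h3 : (1 + n) * P i * (1 - n) * (1 + n) = (1 + n) * P i := by
        rw [mul_assoc, hvu', mul_one]
      rw [h3, hact, hPw, if_neg (by omega), map_zero]
    exact h2
  rw [hF, hπ.mem_ckFil] at hy
  have h1 := hy.2 j (by omega)
  rw [act_map_add, hαj] at h1
  have h2 : C.act (π j) w = 0 := by
    have := hPw j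
    rw [if_neg (by omega)] at this
    exact this
  rw [h2, zero_add] at h1
  exact h1

/-- The first half of (B) from independence of `F^0` just below the middle codimension. -/
theorem murreB0_of_independent (hE : HasGenericCurves C)
    (h : ∀ (X : 𝒱.Obj) (i : ℕ), X.dim = 2 * i + 1 → ∀ π π', IsCK H X π → IsCK H X π' →
      ckFil C π i 0 = ckFil C π' i 0) (X : 𝒱.Obj) : MurreB0 H X := by
  rw [murreB0_iff]
  intro π hπ i j x hx hj
  refine act_zero_of_middle hE isStableFamily_gr (c := 1) ?_ (j - (2 * i + 1)) X π hπ i j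
    (by omega) x hx
  intro X π hπ i j hj hd x hx
  exact act_zero_of_independent (h X i (by omega)) hπ hx (by omega)

/-- **(C) has to be checked only for `F^0` just below the middle codimension.** -/
theorem murreC_iff_belowMiddle (hE : HasGenericCurves C) :
    (∀ X : 𝒱.Obj, MurreC H X) ↔ ∀ (X : 𝒱.Obj) (i : ℕ), X.dim = 2 * i + 1 →
      ∀ π π', IsCK H X π → IsCK H X π' → ckFil C π i 0 = ckFil C π' i 0 := by
  constructor
  · exact fun h X i _ π π' hπ hπ' => h X π π' hπ hπ' i 0
  · exact fun h X => murreC_of_B0 X (murreB0_of_independent hE h _)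

/-- Correspondences acting as zero on the cohomology in degrees `< b₀` are locally nilpotent on
classes without components of weight `≥ b₀`. -/
theorem nilpotent_of_weights {π : ℕ → C.A (X.prod X)} (hπ : IsCK H X π)
    (hB0' : MurreB0 H (X.prod X)) (hN : HomTrivialNilpotent H X) {γ : C.A (X.prod X)}
    (hγ : C.Deg X.dim γ) {i b₀ : ℕ} (hkill : ∀ b : ℕ, b < b₀ → Kills H γ b) {z : C.A X}
    (hz : C.Deg i z) (hz' : ∀ j, b₀ ≤ j → C.act (π j) z = 0) : ∃ m : ℕ, (C.act γ)^[m] z = 0 := by
  have hdeg : ∀ (n : ℕ) (z : C.A X), z ∈ C.gr X i → (C.act γ)^[n] z ∈ C.gr X i := by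
    intro n z hz
    induction n with
    | zero => exact hz
    | succ n ih =>
      rw [Function.iterate_succ_apply']
      exact act_mem0 C hγ ih
  have hdown : ∀ (b : ℕ) (z : C.A X), (∀ j, b < j → C.act (π j) z = 0) →
      (∀ j, b < j → C.act (π j) (C.act γ z) = 0) ∧
        C.act (π b) (C.act γ z) = C.act (C.comp (C.comp (π b) γ) (π b)) (C.act (π b) z) := by
    intro b z hz
    have h1 : z = ∑ j ∈ Finset.range (2 * X.dim + 1), C.act (π j) z := by
      rw [← act_sum, hπ.sum, act_dg]
    have h3 : ∀ l j : ℕ, j < l → C.act (π l) (C.act γ (C.act (π j) z)) = 0 := by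
      intro l j hjl
      rw [← C.act_comp (π j) γ, ← C.act_comp, comp_zero_of_B0 hB0' hπ hπ (i := X.dim) hγ (by omega),
        TheoryData.act_zero]
    constructor
    · intro l hl
      rw [h1, act_map_sum, act_map_sum]
      apply Finset.sum_eq_zero
      intro j _
      by_cases hj : j < l
      · exact h3 l j hj
      · rw [hz j (by omega), TheoryData.act_map_zero, TheoryData.act_map_zero]
    · have h2 : C.act (π b) (C.act γ z) = C.act (π b) (C.act γ (C.act (π b) z)) := by
        conv_lhs => rw [h1]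
        rw [act_map_sum, act_map_sum]
        by_cases hb : b ∈ Finset.range (2 * X.dim + 1)
        · rw [Finset.sum_eq_single_of_mem b hb]
          intro j _ hjb
          rcases lt_or_gt_of_ne hjb with h | h
          · exact h3 b j h
          · rw [hz j h, TheoryData.act_map_zero, TheoryData.act_map_zero]
        · rw [Finset.mem_range] at hb
          rw [hπ.out b (by omega), TheoryData.act_zero]
          apply Finset.sum_eq_zero
          intro j _
          exact C.act_zero _
      rw [h2, C.act_comp, C.act_comp, ← C.act_comp (π b) (π b), hπ.idem]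
  have hiter : ∀ (b n : ℕ) (z : C.A X), (∀ j, b < j → C.act (π j) z = 0) →
      (∀ j, b < j → C.act (π j) ((C.act γ)^[n] z) = 0) ∧ C.act (π b) ((C.act γ)^[n] z) =
        (C.act (C.comp (C.comp (π b) γ) (π b)))^[n] (C.act (π b) z) := by
    intro b n z hz
    induction n with
    | zero => exact ⟨hz, rfl⟩
    | succ n ih =>
      rw [Function.iterate_succ_apply', Function.iterate_succ_apply', ← ih.2]
      exact hdown b _ ih.1
  have key : ∀ b : ℕ, b ≤ b₀ → ∀ z : C.A X, z ∈ C.gr X i →
      (∀ j, b ≤ j → C.act (π j) z = 0) → ∃ m : ℕ, (C.act γ)^[m] z = 0 := by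
    intro b
    induction b with
    | zero =>
      intro _ z _ hz'
      refine ⟨0, ?_⟩
      have h1 : z = ∑ j ∈ Finset.range (2 * X.dim + 1), C.act (π j) z := by
        rw [← act_sum, hπ.sum, act_dg]
      rw [Function.iterate_zero_apply, h1]
      exact Finset.sum_eq_zero fun j _ => hz' j (Nat.zero_le j)
    | succ b ih =>
      intro hb z hz hz'
      have hν : H.cl (C.comp (C.comp (π b) γ) (π b)) = 0 := by
        apply hom_zero_of_act H
        intro y
        have h4 : H.actL (X := X) (Y := X) (H.cl (C.comp (C.comp (π b) γ) (π b))) = 0 := by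
          apply ext_gr H
          intro l a ha
          rw [TheoryData.actL_apply, actH_comp, actH_comp, hπ.actH_eq b l ha,
            LinearMap.zero_apply]
          split_ifs with hl
          · rw [hkill b (by omega) a (by rw [← hl]; exact ha), TheoryData.act_map_zero]
          · rw [TheoryData.act_map_zero, TheoryData.act_map_zero]
        exact LinearMap.congr_fun h4 y
      have hνm : C.Deg (X := X.prod X) X.dim (C.comp (C.comp (π b) γ) (π b)) :=
        comp_mem0 C (comp_mem0 C (hπ.deg b) hγ) (hπ.deg b)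
      obtain ⟨n, hn⟩ := hN _ hνm hν
      have h5 := hiter b n z (fun j hj => hz' j (by omega))
      have h6 : (C.act (C.comp (C.comp (π b) γ) (π b)))^[n] (C.act (π b) z) = 0 := by
        rw [← corPow_iterate inferInstance, hn, TheoryData.act_zero]
      obtain ⟨m, hm⟩ := ih (by omega) ((C.act γ)^[n] z) (hdeg n z hz) fun j hj => by
        by_cases hjb : j = b
        · rw [hjb, h5.2, h6]
        · exact h5.1 j (by omega)
      exact ⟨m + n, by rw [Function.iterate_add_apply, hm]⟩
  exact key b₀ le_rfl z hz hz'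

lemma kunneth_of_CK (hA : ∀ X : 𝒱.Obj, ∃ π : ℕ → C.A (X.prod X), IsCK H X π) :
    KunnethConjecture H := by
  intro X m
  obtain ⟨π, hπ⟩ := hA X
  exact ⟨π m, hπ.deg m, fun l a ha => hπ.actH_eq m l ha⟩

lemma homTrivialNilpotent_of_index {n : ℕ} (h : NilpotentOfIndex H X n) :
    HomTrivialNilpotent H X := by
  intro γ hγ h0
  refine ⟨n, ?_⟩
  have h1 : ∀ m : ℕ, compList C X (List.replicate m γ) = corPow C γ m := by
    intro m
    induction m with
    | zero => rfl
    | succ m ih =>
      rw [corPow_succ', ← ih]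
      rfl
  rw [← h1]
  refine h _ (List.length_replicate) fun δ hδ => ?_
  rw [(List.mem_replicate.1 hδ).2]
  exact ⟨hγ, h0⟩

/-- **(A) and (D) are equivalent to the Kunneth standard conjecture and nilpotence in the middle
codimension.** -/
theorem murreAD_iff (hE : HasGenericCurves C) :
    (∀ X : 𝒱.Obj, (∃ π : ℕ → C.A (X.prod X), IsCK H X π) ∧ MurreD H X) ↔
      KunnethConjecture H ∧ ∀ X : 𝒱.Obj, NilpotentInMiddleCodim H X := by
  constructor
  · intro h
    refine ⟨kunneth_of_CK fun X => (h X).1, fun X i hi γ hγ hkill z hz hz0 => ?_⟩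
    obtain ⟨π, hπ⟩ := (h X).1
    have hN : HomTrivialNilpotent H X := homTrivialNilpotent_of_index
      (nilpotent_of_strictlyLowers X (strictlyLowers_of_D X (h _).2) (h X).1)
    have h1 := ((h X).2 π hπ i z).2 ⟨hz, hz0⟩
    rw [hπ.mem_ckFil] at h1
    exact nilpotent_of_weights hπ (murreB0_of_D _ (h _).2) hN hγ (b₀ := 2 * i)
      (fun b hb => hkill b (by omega)) hz fun j hj => h1.2 j (by omega)
  · rintro ⟨hK, hM⟩ X
    exact ⟨exists_CK_of_nilpotent hK (homTrivialNilpotent_of_middle (hM _)),
      murreD_of_middle hE hM X⟩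

/-- **(A), (C) and nilpotence are equivalent to the Kunneth standard conjecture and nilpotence
below the middle codimension.** -/
theorem murreAC_iff (hE : HasGenericCurves C) :
    (∀ X : 𝒱.Obj, (∃ π : ℕ → C.A (X.prod X), IsCK H X π) ∧ MurreC H X ∧
      HomTrivialNilpotent H X) ↔
      KunnethConjecture H ∧ ∀ X : 𝒱.Obj, NilpotentBelowMiddleCodim H X := by
  constructor
  · intro h
    have hB0 : ∀ X : 𝒱.Obj, MurreB0 H X := fun X =>
      murreB0_of_C0 X fun π π' hπ hπ' i => (h X).2.1 π π' hπ hπ' i 0
    refine ⟨kunneth_of_CK fun X => (h X).1, fun X i hi γ hγ hkill z hz => ?_⟩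
    obtain ⟨π, hπ⟩ := (h X).1
    exact nilpotent_of_weights hπ (hB0 _) (h X).2.2 hγ (b₀ := 2 * i + 1)
      (fun b hb => hkill b (by omega)) hz fun j hj => (murreB0_iff X).1 (hB0 X) π hπ i j z hz
        (by omega)
  · rintro ⟨hK, hM⟩ X
    have hN := homTrivialNilpotent_of_belowMiddle hE hM X
    exact ⟨exists_CK_of_nilpotent hK hN, murreC_of_B0 X (murreB0_of_belowMiddle hE hM _), hN⟩

end Pool.Agent.TH116.ZC
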